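import Pool.Agent.Lib.MP_f53aaa_nt.Core

section
set_option autoImplicit false

/-! Two multiplicative relations modulo a prime power dividing `8 d_m ^ 2 + 1`. -/

open Finset

namespace Pool.Agent.Lib.MP_f53aaa_nt.Prim

theorem pell_cast {A : Type*} [CommRing A] (s : A) (hs : s ^ 2 = 2) (m : ℕ) :
    2 * ((pell m).1 : A) = (1 + s) ^ (2 * m) + (1 - s) ^ (2 * m) ∧
    4 * s * ((pell m).2 : A) = (1 + s) ^ (2 * m) - (1 - s) ^ (2 * m) := by
  induction m with
  | zero => simp [pell]; norm_num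
  | succ m ih =>
    obtain ⟨h1, h2⟩ := ih
    have e1 : (1 + s) ^ (2 * (m + 1)) = (1 + s) ^ (2 * m) * (1 + s) ^ 2 := by
      rw [← pow_add]; rfl
    have e2 : (1 - s) ^ (2 * (m + 1)) = (1 - s) ^ (2 * m) * (1 - s) ^ 2 := by
      rw [← pow_add]; rfl
    rw [e1, e2]
    set X := (1 + s) ^ (2 * m)
    set Y := (1 - s) ^ (2 * m)
    simp only [pell]
    push_cast
    constructor
    · linear_combination 3 * h1 + 2 * s * h2 +
        (-8 * ((pell m).2 : A) - (X + Y)) * hs
    · linear_combination 3 * h2 + 2 * s * h1 - (X - Y) * hs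

/-- If `Q`, prime to `3`, divides `val m` then `ℤ/Q` contains `s` with `s ^ 2 = 2` and
`(1 + s) ^ (4 m) = -2`. -/
theorem exists_s' (Q m : ℕ) (h3 : Nat.Coprime 3 Q) (h : Q ∣ val m) :
    ∃ s : ZMod Q, s ^ 2 = 2 ∧ (1 + s) ^ (4 * m) = -2 := by
  have e1 : 8 * ((pell m).1 : ZMod Q) ^ 2 + 1 = 0 := by
    have := (ZMod.natCast_eq_zero_iff (val m) Q).2 h
    unfold val at this
    push_cast at this
    exact this
  have e2 : 64 * ((pell m).2 : ZMod Q) ^ 2 + 9 = 0 := by
    have := (ZMod.natCast_eq_zero_iff (val m) Q).2 h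
    rw [val_eq] at this
    push_cast at this
    exact this
  have h9 : Nat.Coprime 9 Q := by
    have : 9 = 3 ^ 2 := by norm_num
    rw [this]
    exact Nat.Coprime.pow_left 2 h3
  obtain ⟨u, hu⟩ : ∃ u : ZMod Q, 9 * u = 1 := by
    refine ⟨((9 : ℕ) : ZMod Q)⁻¹, ?_⟩
    have := ZMod.coe_mul_inv_eq_one (n := Q) 9 h9
    push_cast at this ⊢
    exact this
  set D : ZMod Q := ((pell m).1 : ZMod Q) with hD
  set B : ZMod Q := ((pell m).2 : ZMod Q) with hB
  obtain ⟨s, hs⟩ : ∃ s : ZMod Q, s = -96 * u * D * B := ⟨_, rfl⟩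
  have hs2 : s ^ 2 = 2 := by
    rw [hs]
    linear_combination 1152 * u ^ 2 * B ^ 2 * e1 - 18 * u ^ 2 * e2 + 2 * (9 * u + 1) * hu
  have h9' : D + 2 * B * s = 4 * D := by
    rw [hs]
    linear_combination (-3 * u * D) * e2 + 3 * D * hu
  have key : ∀ k : ℕ, (3 + 2 * s) ^ k = ((pell k).1 : ZMod Q) + 2 * ((pell k).2 : ZMod Q) * s := by
    intro k
    induction k with
    | zero => simp [pell]
    | succ k ih =>
      rw [pow_succ, ih]
      simp only [pell]
      push_cast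
      linear_combination (4 * ((pell k).2 : ZMod Q)) * hs2
  refine ⟨s, hs2, ?_⟩
  have h7 : (1 + s) ^ 2 = 3 + 2 * s := by linear_combination hs2
  have h8 : (1 + s) ^ (4 * m) = ((3 + 2 * s) ^ m) ^ 2 := by
    rw [← h7, ← pow_mul, ← pow_mul]
    congr 1
    ring
  rw [h8, key m, ← hD, ← hB, h9']
  linear_combination 2 * e1

/-- square roots of two modulo an odd prime power -/
theorem sqrt_two (p j : ℕ) (hp : p.Prime) (h2 : p ≠ 2) (s t : ZMod (p ^ j)) (hs : s ^ 2 = 2)
    (ht : t ^ 2 = 2) (hj : 1 ≤ j) : t = s ∨ t = -s := by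
  have hQ : p ^ j ≠ 0 := pow_ne_zero _ hp.ne_zero
  have : NeZero (p ^ j) := ⟨hQ⟩
  obtain ⟨x, hx⟩ : ∃ x : ℤ, ((x : ℤ) : ZMod (p ^ j)) = s := ZMod.intCast_surjective s
  obtain ⟨y, hy⟩ : ∃ y : ℤ, ((y : ℤ) : ZMod (p ^ j)) = t := ZMod.intCast_surjective t
  have hdiv : ∀ z : ℤ, ((z : ℤ) : ZMod (p ^ j)) = 0 ↔ (p : ℤ) ^ j ∣ z := by
    intro z
    rw [ZMod.intCast_zmod_eq_zero_iff_dvd]
    push_cast
    rfl
  have hx2 : (p : ℤ) ^ j ∣ x ^ 2 - 2 := by
    rw [← hdiv]
    push_cast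
    rw [hx, hs]
    ring
  have hxy : (p : ℤ) ^ j ∣ (y - x) * (y + x) := by
    rw [← hdiv]
    push_cast
    rw [hx, hy]
    linear_combination ht - hs
  have hpZ : Prime (p : ℤ) := Nat.prime_iff_prime_int.1 hp
  by_cases h : (p : ℤ) ∣ y - x
  · have h' : ¬ (p : ℤ) ∣ y + x := by
      intro h'
      have h3 : (p : ℤ) ∣ 2 * x := by
        have := dvd_sub h' h
        have e : y + x - (y - x) = 2 * x := by ring
        rwa [e] at this
      have h4 : ¬ (p : ℤ) ∣ 2 := by
        intro h4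
        have h5 : p ∣ 2 := by exact_mod_cast h4
        exact h2 ((Nat.prime_dvd_prime_iff_eq hp Nat.prime_two).1 h5)
      rcases hpZ.dvd_or_dvd h3 with h5 | h5
      · exact h4 h5
      · have h6 : (p : ℤ) ∣ x ^ 2 := Dvd.dvd.trans h5 (dvd_pow_self x (by norm_num))
        have h7 : (p : ℤ) ∣ x ^ 2 - 2 := (dvd_pow_self (p : ℤ) (by omega)).trans hx2
        have h8 := dvd_sub h6 h7
        have e : x ^ 2 - (x ^ 2 - 2) = 2 := by ring
        rw [e] at h8
        exact h4 h8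
    have hcop : IsCoprime ((p : ℤ) ^ j) (y + x) :=
      IsCoprime.pow_left ((Prime.coprime_iff_not_dvd hpZ).2 h')
    left
    have := hcop.dvd_of_dvd_mul_right hxy
    rw [← hdiv] at this
    push_cast at this
    rw [hx, hy] at this
    linear_combination this
  · have hcop : IsCoprime ((p : ℤ) ^ j) (y - x) :=
      IsCoprime.pow_left ((Prime.coprime_iff_not_dvd hpZ).2 h)
    right
    have := hcop.dvd_of_dvd_mul_left hxy
    rw [← hdiv] at this
    push_cast at this
    rw [hx, hy] at this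
    linear_combination this

/-- the integer `norm ((-2) ^ a - (1 + √2) ^ (4 b))` -/
def E (a b : ℕ) : ℤ := 4 ^ a + 1 - (-2) ^ a * (2 * ((pell (2 * b)).1 : ℤ))

theorem pell_one_le (k : ℕ) : 1 ≤ (pell k).1 := by
  induction k with
  | zero => simp [pell]
  | succ k ih => simp only [pell]; omega

theorem pell_ge (k : ℕ) (hk : 1 ≤ k) : 3 ≤ (pell k).1 := by
  obtain ⟨i, rfl⟩ : ∃ i, k = i + 1 := ⟨k - 1, by omega⟩
  have := pell_one_le i
  simp only [pell]
  omega

theorem pell_le (k : ℕ) : (pell k).1 ≤ 6 ^ k := by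
  induction k with
  | zero => simp [pell]
  | succ k ih =>
    have h1 := pell_eq k
    have h2 : 8 * (pell k).2 ≤ 3 * (pell k).1 := by
      by_contra h
      push Not at h
      nlinarith
    simp only [pell]
    rw [pow_succ]
    omega

theorem E_ne (a b : ℕ) (h : ¬ (a = 0 ∧ b = 0)) : E a b ≠ 0 := by
  intro h0
  rcases Nat.eq_zero_or_pos a with ha | ha
  · subst ha
    have hb : 1 ≤ b := by omega
    have h1 := pell_ge (2 * b) (by omega)
    unfold E at h0
    simp only [pow_zero] at h0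
    omega
  · unfold E at h0
    obtain ⟨i, rfl⟩ : ∃ i, a = i + 1 := ⟨a - 1, by omega⟩
    have h1 : (4 : ℤ) ^ (i + 1) + 1 - (-2) ^ (i + 1) * (2 * ((pell (2 * b)).1 : ℤ)) =
      2 * (2 * 4 ^ i - (-2) ^ (i + 1) * ((pell (2 * b)).1 : ℤ)) + 1 := by ring
    rw [h1] at h0
    omega

theorem E_le (L a b : ℕ) (ha : a ≤ L) (hb : b ≤ L) : (E a b).natAbs ≤ 4 * 72 ^ L := by
  have h1 : |E a b| ≤ 4 ^ a + 1 + 2 ^ a * (2 * ((pell (2 * b)).1 : ℤ)) := by
    unfold E
    refine (abs_sub _ _).trans ?_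
    rw [abs_mul, abs_pow, abs_neg, abs_two]
    have e1 : |(4 : ℤ) ^ a + 1| = 4 ^ a + 1 := abs_of_pos (by positivity)
    have e2 : |2 * ((pell (2 * b)).1 : ℤ)| = 2 * ((pell (2 * b)).1 : ℤ) :=
      abs_of_nonneg (by positivity)
    rw [e1, e2]
  have h2 : ((pell (2 * b)).1 : ℤ) ≤ 36 ^ L := by
    have h3 := pell_le (2 * b)
    have h4 : 6 ^ (2 * b) ≤ 6 ^ (2 * L) := Nat.pow_le_pow_right (by norm_num) (by omega)
    have h5 : 6 ^ (2 * L) = 36 ^ L := by
      rw [pow_mul]
      norm_num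
    have h6 : (pell (2 * b)).1 ≤ 36 ^ L := by
      rw [← h5]
      exact h3.trans h4
    exact_mod_cast h6
  have h3 : (4 : ℤ) ^ a ≤ 72 ^ L := by
    calc (4 : ℤ) ^ a ≤ 4 ^ L := pow_le_pow_right₀ (by norm_num) ha
      _ ≤ 72 ^ L := pow_le_pow_left₀ (by norm_num) (by norm_num) L
  have h4 : (2 : ℤ) ^ a ≤ 2 ^ L := pow_le_pow_right₀ (by norm_num) ha
  have h5 : (1 : ℤ) ≤ 72 ^ L := one_le_pow₀ (by norm_num)
  have h6 : (2 : ℤ) ^ a * ((pell (2 * b)).1 : ℤ) ≤ 2 ^ L * 36 ^ L :=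
    mul_le_mul h4 h2 (by positivity) (by positivity)
  have h7 : (2 : ℤ) ^ L * 36 ^ L = 72 ^ L := by
    rw [← mul_pow]
    norm_num
  have h8 : |E a b| ≤ 4 * 72 ^ L := by
    rw [h7] at h6
    linarith
  have h9 : ((E a b).natAbs : ℤ) ≤ ((4 * 72 ^ L : ℕ) : ℤ) := by
    rw [Int.natCast_natAbs]
    push_cast
    exact h8
  exact_mod_cast h9

/-- the product of the `|E a b|`, `a, b ≤ L` -/
def P (L : ℕ) : ℕ := ∏ x ∈ ((range (L + 1)) ×ˢ (range (L + 1))).erase (0, 0), (E x.1 x.2).natAbs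

theorem P_pos (L : ℕ) : 0 < P L := by
  unfold P
  refine prod_pos (fun x hx => ?_)
  rw [mem_erase] at hx
  refine Int.natAbs_pos.2 (E_ne x.1 x.2 ?_)
  rintro ⟨h1, h2⟩
  exact hx.1 (Prod.ext h1 h2)

theorem P_le (L : ℕ) : P L ≤ (4 * 72 ^ L) ^ ((L + 1) * (L + 1)) := by
  unfold P
  refine (prod_le_prod' (fun x hx => ?_) : _ ≤ ∏ x ∈ ((range (L + 1)) ×ˢ
    (range (L + 1))).erase (0, 0), (4 * 72 ^ L)).trans ?_
  · rw [mem_erase, mem_product, mem_range, mem_range] at hx
    exact E_le L x.1 x.2 (by omega) (by omega)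
  · rw [prod_const]
    refine Nat.pow_le_pow_right (by positivity) ?_
    refine (card_erase_le).trans ?_
    rw [card_product, card_range]

theorem dvd_P {Q L a b : ℕ} (ha : a ≤ L) (hb : b ≤ L) (h0 : ¬ (a = 0 ∧ b = 0))
    (h : ((E a b : ℤ) : ZMod Q) = 0) : Q ∣ P L := by
  have h1 : Q ∣ (E a b).natAbs := by
    rw [← Int.natCast_dvd]
    exact (ZMod.intCast_zmod_eq_zero_iff_dvd _ _).1 h
  refine h1.trans ?_
  unfold P
  refine dvd_prod_of_mem (fun x : ℕ × ℕ => (E x.1 x.2).natAbs) (a := (a, b)) ?_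
  rw [mem_erase, mem_product, mem_range, mem_range]
  refine ⟨?_, by omega, by omega⟩
  intro h2
  exact h0 ⟨congrArg Prod.fst h2, congrArg Prod.snd h2⟩

/-- For a prime power `Q` dividing some value: `n` such that the indices of the values
divisible by `Q` agree up to sign modulo `n`, and `Q ∣ P L` as soon as `n < (L + 1) ^ 2`. -/
theorem exists_n (p j m : ℕ) (hp : p.Prime) (h3 : p ≠ 3) (hj : 1 ≤ j)
    (h : p ^ j ∣ val m) : ∃ n : ℕ, 0 < n ∧
    (∀ m1 m2 : ℕ, p ^ j ∣ val m1 → p ^ j ∣ val m2 →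
      (n : ℤ) ∣ (m1 : ℤ) - m2 ∨ (n : ℤ) ∣ (m1 : ℤ) + m2) ∧
    (∀ L : ℕ, n < (L + 1) ^ 2 → p ^ j ∣ P L) := by
  have h2 : p ≠ 2 := by
    rintro rfl
    exact not_two m ((dvd_pow_self 2 (by omega)).trans h)
  have hQ : p ^ j ≠ 0 := pow_ne_zero _ hp.ne_zero
  have : NeZero (p ^ j) := ⟨hQ⟩
  have hco : Nat.Coprime 3 (p ^ j) := by
    refine Nat.Coprime.pow_right j ?_
    exact (Nat.coprime_primes Nat.prime_three hp).2 (Ne.symm h3)
  obtain ⟨s, hs, hsm⟩ := exists_s' (p ^ j) m hco h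
  have hgg : (1 + s) ^ 4 * (1 - s) ^ 4 = 1 := by
    have : (1 + s) * (1 - s) = -1 := by linear_combination -hs
    rw [← mul_pow, this]
    norm_num
  have hgg' : (1 - s) ^ 4 * (1 + s) ^ 4 = 1 := by rw [mul_comm]; exact hgg
  obtain ⟨g, hg1, hg2⟩ : ∃ g : (ZMod (p ^ j))ˣ, (g : ZMod (p ^ j)) = (1 + s) ^ 4 ∧
      ((g⁻¹ : (ZMod (p ^ j))ˣ) : ZMod (p ^ j)) = (1 - s) ^ 4 :=
    ⟨⟨(1 + s) ^ 4, (1 - s) ^ 4, hgg, hgg'⟩, rfl, rfl⟩
  have key : ∀ m', p ^ j ∣ val m' → ((g ^ (m' : ℤ) : (ZMod (p ^ j))ˣ) : ZMod (p ^ j)) = -2 ∨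
      ((g ^ (-(m' : ℤ)) : (ZMod (p ^ j))ˣ) : ZMod (p ^ j)) = -2 := by
    intro m' hm'
    obtain ⟨s', hs', he'⟩ := exists_s' (p ^ j) m' hco hm'
    rcases sqrt_two p j hp h2 s s' hs hs' hj with hss | hss
    · left
      rw [zpow_natCast, Units.val_pow_eq_pow_val, hg1, ← pow_mul, ← hss]
      exact he'
    · right
      rw [zpow_neg, zpow_natCast, ← inv_pow, Units.val_pow_eq_pow_val, hg2, ← pow_mul]
      rw [hss, ← sub_eq_add_neg] at he'
      exact he'
  have hinj : ∀ a b : ℤ, ((g ^ a : (ZMod (p ^ j))ˣ) : ZMod (p ^ j)) = -2 →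
      ((g ^ b : (ZMod (p ^ j))ˣ) : ZMod (p ^ j)) = -2 → (orderOf g : ℤ) ∣ a - b := by
    intro a b ha hb
    rw [orderOf_dvd_iff_zpow_eq_one, zpow_sub, mul_inv_eq_one]
    ext
    rw [ha, hb]
  refine ⟨orderOf g, orderOf_pos g, ?_, ?_⟩
  · intro m1 m2 hm1 hm2
    rcases key m1 hm1 with h1 | h1 <;> rcases key m2 hm2 with h4 | h4
    · left
      exact hinj _ _ h1 h4
    · right
      have := hinj _ _ h1 h4
      rwa [sub_neg_eq_add] at this
    · right
      have := hinj _ _ h4 h1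
      rw [sub_neg_eq_add] at this
      rwa [add_comm]
    · left
      have := hinj _ _ h4 h1
      have e : -(m2 : ℤ) - -(m1 : ℤ) = m1 - m2 := by ring
      rwa [e] at this
  · intro L hL
    have hgm : ((g ^ m : (ZMod (p ^ j))ˣ) : ZMod (p ^ j)) = -2 := by
      rw [Units.val_pow_eq_pow_val, hg1, ← pow_mul]
      exact hsm
    -- pigeonhole
    obtain ⟨x, hx, y, hy, hxy, hf⟩ := exists_ne_map_eq_of_card_lt_of_maps_to
      (s := (range (L + 1)) ×ˢ (range (L + 1))) (t := range (orderOf g))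
      (f := fun x : ℕ × ℕ => (m * x.1 + x.2) % orderOf g)
      (by rw [card_product, card_range, card_range, ← sq]; exact hL)
      (fun x _ => by
        simp only [coe_range, Set.mem_Iio]
        exact Nat.mod_lt _ (orderOf_pos g))
    have hgen : ∀ x y : ℕ × ℕ, x ∈ (range (L + 1)) ×ˢ (range (L + 1)) →
        y ∈ (range (L + 1)) ×ˢ (range (L + 1)) → x ≠ y → y.1 ≤ x.1 →
        (m * x.1 + x.2) % orderOf g = (m * y.1 + y.2) % orderOf g → p ^ j ∣ P L := by
      intro x y hx hy hxy hle hf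
      rw [mem_product, mem_range, mem_range] at hx hy
      have h4 : g ^ (m * x.1 + x.2) = g ^ (m * y.1 + y.2) := pow_eq_pow_iff_modEq.2 hf
      obtain ⟨a, ha⟩ : ∃ a, x.1 = y.1 + a := ⟨x.1 - y.1, by omega⟩
      have h5 : g ^ (m * a) * g ^ x.2 = g ^ y.2 := by
        rw [ha, mul_add, add_assoc, pow_add g (m * y.1), pow_add g (m * y.1)] at h4
        have h6 := mul_left_cancel h4
        rw [pow_add] at h6
        exact h6
      have h6 : ((g ^ (m * a) : (ZMod (p ^ j))ˣ) : ZMod (p ^ j)) = (-2) ^ a := by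
        rw [pow_mul, Units.val_pow_eq_pow_val, hgm]
      -- the value of `E`
      have hE : ∀ b : ℕ, ((E a b : ℤ) : ZMod (p ^ j)) =
          ((-2) ^ a - ((g ^ b : (ZMod (p ^ j))ˣ) : ZMod (p ^ j))) *
          ((-2) ^ a - (((g ^ b)⁻¹ : (ZMod (p ^ j))ˣ) : ZMod (p ^ j))) := by
        intro b
        obtain ⟨hc, -⟩ := pell_cast s hs (2 * b)
        have e1 : ((g ^ b : (ZMod (p ^ j))ˣ) : ZMod (p ^ j)) = (1 + s) ^ (2 * (2 * b)) := by
          rw [Units.val_pow_eq_pow_val, hg1, ← pow_mul]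
          congr 1
          ring
        have e2 : (((g ^ b)⁻¹ : (ZMod (p ^ j))ˣ) : ZMod (p ^ j)) = (1 - s) ^ (2 * (2 * b)) := by
          rw [← inv_pow, Units.val_pow_eq_pow_val, hg2, ← pow_mul]
          congr 1
          ring
        have e3 : ((g ^ b : (ZMod (p ^ j))ˣ) : ZMod (p ^ j)) *
            (((g ^ b)⁻¹ : (ZMod (p ^ j))ˣ) : ZMod (p ^ j)) = 1 := by
          rw [← Units.val_mul, mul_inv_cancel, Units.val_one]
        rw [← e1, ← e2] at hc
        generalize ((g ^ b : (ZMod (p ^ j))ˣ) : ZMod (p ^ j)) = G at hc e3 ⊢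
        generalize (((g ^ b)⁻¹ : (ZMod (p ^ j))ˣ) : ZMod (p ^ j)) = G' at hc e3 ⊢
        have e4 : (4 : ZMod (p ^ j)) ^ a = ((-2) ^ a) ^ 2 := by
          rw [← pow_mul, mul_comm, pow_mul]
          norm_num
        unfold E
        push_cast
        rw [e4]
        linear_combination (-(-2) ^ a) * hc - e3
      rcases Nat.le_total x.2 y.2 with hl | hl
      · obtain ⟨b, hb⟩ : ∃ b, y.2 = x.2 + b := ⟨y.2 - x.2, by omega⟩
        have h7 : g ^ (m * a) = g ^ b := by
          rw [hb, pow_add, mul_comm] at h5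
          exact mul_left_cancel h5
        refine dvd_P (a := a) (b := b) (by omega) (by omega) ?_ ?_
        · rintro ⟨ha0, hb0⟩
          exact hxy (Prod.ext (by omega) (by omega))
        · rw [hE b, ← h6, h7, sub_self, zero_mul]
      · obtain ⟨b, hb⟩ : ∃ b, x.2 = y.2 + b := ⟨x.2 - y.2, by omega⟩
        have h7 : g ^ (m * a) = (g ^ b)⁻¹ := by
          rw [hb, add_comm, pow_add, ← mul_assoc] at h5
          have h8 : g ^ (m * a) * g ^ b = 1 := by
            have h9 : g ^ (m * a) * g ^ b * g ^ y.2 = 1 * g ^ y.2 := by rw [h5, one_mul]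
            exact mul_right_cancel h9
          exact eq_inv_of_mul_eq_one_left h8
        refine dvd_P (a := a) (b := b) (by omega) (by omega) ?_ ?_
        · rintro ⟨ha0, hb0⟩
          exact hxy (Prod.ext (by omega) (by omega))
        · rw [hE b, ← h6, h7, sub_self, mul_zero]
    rcases Nat.le_total y.1 x.1 with hle | hle
    · exact hgen x y hx hy hxy hle hf
    · exact hgen y x hy hx hxy.symm hle hf.symm

end Pool.Agent.Lib.MP_f53aaa_nt.Prim
end

section
set_option autoImplicit false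

/-! The part of `8 d_m ^ 2 + 1` that divides the least common multiple of the earlier values. -/

open Finset ArithmeticFunction

namespace Pool.Agent.Lib.MP_f53aaa_nt.Prim

/-- least common multiple of `val k`, `k < m` -/
def Lc (m : ℕ) : ℕ := (range m).lcm val

/-- the old part of `val m` -/
def R (m : ℕ) : ℕ := Nat.gcd (val m) (Lc m)

theorem val_pos (m : ℕ) : 0 < val m := by unfold val; omega

theorem Lc_ne (m : ℕ) : Lc m ≠ 0 := by
  unfold Lc
  rw [Ne, Finset.lcm_eq_zero_iff]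
  rintro ⟨k, -, hk⟩
  exact (val_pos k).ne' hk

theorem R_pos (m : ℕ) : 0 < R m := Nat.gcd_pos_of_pos_left _ (val_pos m)

theorem Lc_step (m : ℕ) : Lc (m + 1) * R m = Lc m * val m := by
  unfold Lc
  rw [range_add_one, Finset.lcm_insert]
  have h := Nat.gcd_mul_lcm (val m) (Lc m)
  unfold R
  unfold Lc at h ⊢
  rw [lcm_eq_nat_lcm, mul_comm, h, mul_comm]

theorem log_Lc (M : ℕ) : Real.log (Lc M) = ∑ m ∈ range M, Real.log (val m) -
    ∑ m ∈ range M, Real.log (R m) := by
  induction M with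
  | zero => simp [Lc]
  | succ M ih =>
    have h : ((Lc (M + 1) : ℕ) : ℝ) * (R M : ℕ) = (Lc M : ℕ) * (val M : ℕ) := by
      exact_mod_cast Lc_step M
    have h1 : ((Lc (M + 1) : ℕ) : ℝ) ≠ 0 := by exact_mod_cast Lc_ne (M + 1)
    have h2 : ((Lc M : ℕ) : ℝ) ≠ 0 := by exact_mod_cast Lc_ne M
    have h3 : ((R M : ℕ) : ℝ) ≠ 0 := by exact_mod_cast (R_pos M).ne'
    have h4 : ((val M : ℕ) : ℝ) ≠ 0 := by exact_mod_cast (val_pos M).ne'
    have h5 := congrArg Real.log h
    rw [Real.log_mul h1 h3, Real.log_mul h2 h4, ih] at h5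
    rw [sum_range_succ, sum_range_succ]
    linarith

theorem pp (p j m : ℕ) (hp : p.Prime) (hj : 1 ≤ j) (h : p ^ j ∣ Lc m) :
    ∃ k, k < m ∧ p ^ j ∣ val k := by
  rw [hp.pow_dvd_iff_le_factorization (Lc_ne m)] at h
  unfold Lc at h
  rw [Finset.factorization_lcm (fun k _ => (val_pos k).ne')] at h
  have h0 : (⊥ : ℕ) < j := by
    rw [bot_eq_zero]
    omega
  obtain ⟨k, hk, hk2⟩ := (Finset.le_sup_iff h0).1 h
  refine ⟨k, mem_range.1 hk, ?_⟩
  rw [hp.pow_dvd_iff_le_factorization (val_pos k).ne']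
  exact hk2

theorem not27 (m : ℕ) : ¬ 3 ^ 3 ∣ val m := by
  rw [val_eq]
  intro h
  have h9 : 9 ∣ 64 * (pell m).2 ^ 2 := by
    have h1 : 9 ∣ 64 * (pell m).2 ^ 2 + 9 := (show 9 ∣ 3 ^ 3 by norm_num).trans h
    exact (Nat.dvd_add_left (dvd_refl 9)).1 h1
  have h3 : 3 ∣ (pell m).2 := by
    have h1 : 3 ∣ 64 * (pell m).2 ^ 2 := (show 3 ∣ 9 by norm_num).trans h9
    have h2 : Nat.Coprime 3 64 := by norm_num
    exact Nat.prime_three.dvd_of_dvd_pow (h2.dvd_of_dvd_mul_left h1)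
  obtain ⟨c, hc⟩ := h3
  rw [hc] at h
  have e : 64 * (3 * c) ^ 2 + 9 = 9 * (64 * c ^ 2 + 1) := by ring
  have e' : 3 ^ 3 = 9 * 3 := by norm_num
  rw [e, e'] at h
  have h4 : 3 ∣ 64 * c ^ 2 + 1 := Nat.dvd_of_mul_dvd_mul_left (by norm_num) h
  have h5 : c % 3 = 0 ∨ c % 3 = 1 ∨ c % 3 = 2 := by omega
  have h6 : (64 * c ^ 2 + 1) % 3 = 0 := Nat.mod_eq_zero_of_dvd h4
  rcases h5 with h5 | h5 | h5 <;>
    simp [Nat.add_mod, Nat.mul_mod, Nat.pow_mod, h5] at h6

/-- the part of `R m` prime to `3` -/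
theorem R_split (m : ℕ) : ∃ e r : ℕ, ¬ 3 ∣ r ∧ R m = 3 ^ e * r ∧ e ≤ 2 := by
  obtain ⟨e, r, h1, h2⟩ := Nat.exists_eq_pow_mul_and_not_dvd (R_pos m).ne' 3 (by norm_num)
  refine ⟨e, r, h1, h2, ?_⟩
  by_contra h
  have h3 : 3 ^ 3 ∣ R m := by
    rw [h2]
    exact Dvd.dvd.mul_right (pow_dvd_pow 3 (by omega)) r
  exact not27 m (h3.trans (Nat.gcd_dvd_left _ _))

/-- counting the indices -/
theorem count_le (Q n M : ℕ) (hn : 0 < n) (hM : n ≤ 2 * M)
    (h : ∀ m1 m2 : ℕ, Q ∣ val m1 → Q ∣ val m2 →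
      (n : ℤ) ∣ (m1 : ℤ) - m2 ∨ (n : ℤ) ∣ (m1 : ℤ) + m2) :
    (((range M).filter (fun m => Q ∣ val m)).card : ℝ) ≤ 6 * M / n := by
  have hn0 : (0 : ℝ) < n := by exact_mod_cast hn
  have hMn : (n : ℝ) ≤ 2 * M := by exact_mod_cast hM
  rcases ((range M).filter (fun m => Q ∣ val m)).eq_empty_or_nonempty with h0 | ⟨m0, hm0⟩
  · rw [h0]
    simp only [card_empty, Nat.cast_zero]
    positivity
  · rw [mem_filter] at hm0
    have hcls : ∀ v : ℕ, (((range M).filter (fun m => m ≡ v [MOD n])).card : ℝ) ≤ M / n + 1 := by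
      intro v
      have h1 : ((range M).filter (fun m => m ≡ v [MOD n])).card =
          M / n + if v % n < M % n then 1 else 0 := by
        rw [← Nat.count_modEq_card M hn v, Nat.count_eq_card_filter_range]
      rw [h1]
      have h2 : ((M / n : ℕ) : ℝ) ≤ (M : ℝ) / n := Nat.cast_div_le
      push_cast
      split_ifs <;> linarith
    have hsub : (range M).filter (fun m => Q ∣ val m) ⊆
        (range M).filter (fun m => m ≡ m0 [MOD n]) ∪
        (range M).filter (fun m => m ≡ (n - m0 % n) [MOD n]) := by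
      intro m hm
      rw [mem_filter] at hm
      rw [mem_union, mem_filter, mem_filter]
      rcases h m m0 hm.2 hm0.2 with h1 | h1
      · left
        exact ⟨hm.1, ((Nat.modEq_iff_dvd).2 h1).symm⟩
      · right
        refine ⟨hm.1, ?_⟩
        have hlt := Nat.mod_lt m0 hn
        have h2 : (n - m0 % n) ≡ m [MOD n] := by
          rw [Nat.modEq_iff_dvd]
          have e1 : ((n - m0 % n : ℕ) : ℤ) = (n : ℤ) - ((m0 % n : ℕ) : ℤ) := by
            rw [Nat.cast_sub hlt.le]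
          have e2 : ((m0 : ℕ) : ℤ) = n * ((m0 / n : ℕ) : ℤ) + ((m0 % n : ℕ) : ℤ) := by
            exact_mod_cast (Nat.div_add_mod m0 n).symm
          rw [e1]
          have e3 : (m : ℤ) - ((n : ℤ) - ((m0 % n : ℕ) : ℤ)) =
              ((m : ℤ) + m0) - n * (((m0 / n : ℕ) : ℤ) + 1) := by
            rw [e2]
            ring
          rw [e3]
          exact dvd_sub h1 (Dvd.intro _ rfl)
        exact h2.symm
    have h1 := (card_le_card hsub).trans (card_union_le _ _)
    have h2 : (((range M).filter (fun m => Q ∣ val m)).card : ℝ) ≤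
        ((range M).filter (fun m => m ≡ m0 [MOD n])).card +
        ((range M).filter (fun m => m ≡ (n - m0 % n) [MOD n])).card := by exact_mod_cast h1
    have h3 := hcls m0
    have h4 := hcls (n - m0 % n)
    have h5 : 1 ≤ 2 * (M : ℝ) / n := by
      rw [le_div_iff₀ hn0]
      linarith
    have h6 : 6 * (M : ℝ) / n = 2 * ((M : ℝ) / n) + 2 * (2 * (M : ℝ) / n) := by ring
    rw [h6]
    linarith

theorem log_P (L : ℕ) (hL : 2 ≤ L) : Real.log (P L) ≤ 14 * (L : ℝ) ^ 3 := by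
  have h1 : ((P L : ℕ) : ℝ) ≤ (4 * 72 ^ L) ^ ((L + 1) * (L + 1)) := by exact_mod_cast P_le L
  have h0 : (0 : ℝ) < ((P L : ℕ) : ℝ) := by exact_mod_cast P_pos L
  have h2 := Real.log_le_log h0 h1
  rw [Real.log_pow, Real.log_mul (by norm_num) (by positivity), Real.log_pow] at h2
  have h3 : Real.log 4 ≤ 2 := by
    have e : (4 : ℝ) = 2 ^ 2 := by norm_num
    have := Real.log_two_lt_d9
    rw [e, Real.log_pow]
    push_cast
    linarith
  have h4 : Real.log 72 ≤ 5 := by
    have h5 : Real.log 72 ≤ Real.log (2 ^ 7) := Real.log_le_log (by norm_num) (by norm_num)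
    have := Real.log_two_lt_d9
    rw [Real.log_pow] at h5
    push_cast at h5
    linarith
  have hLR : (2 : ℝ) ≤ L := by exact_mod_cast hL
  refine h2.trans ?_
  push_cast
  have h5 : Real.log 4 + (L : ℝ) * Real.log 72 ≤ 6 * L := by nlinarith
  have h6 : ((L : ℝ) + 1) * (L + 1) ≤ 9 / 4 * (L : ℝ) ^ 2 := by nlinarith
  calc ((L : ℝ) + 1) * (L + 1) * (Real.log 4 + (L : ℝ) * Real.log 72)
      ≤ (9 / 4 * (L : ℝ) ^ 2) * (6 * L) := by
        have : 0 ≤ Real.log 4 + (L : ℝ) * Real.log 72 := by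
          have a1 : 0 ≤ Real.log 4 := Real.log_nonneg (by norm_num)
          have a2 : 0 ≤ Real.log 72 := Real.log_nonneg (by norm_num)
          positivity
        gcongr
    _ ≤ 14 * (L : ℝ) ^ 3 := by
        have : (0 : ℝ) ≤ (L : ℝ) ^ 3 := by positivity
        nlinarith

/-- choice of the data -/
theorem data (M m Q : ℕ) (hm : m < M) (h3 : ¬ 3 ∣ Q) (hQ : IsPrimePow Q) (hR : Q ∣ R m) :
    ∃ n : ℕ, 0 < n ∧ n ≤ 2 * M ∧
      (((range M).filter (fun m => Q ∣ val m)).card : ℝ) ≤ 6 * M / n ∧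
      (∀ L : ℕ, n < (L + 1) ^ 2 → Q ∣ P L) := by
  obtain ⟨p, j, hp, hj, rfl⟩ := (isPrimePow_nat_iff Q).1 hQ
  have hp3 : p ≠ 3 := by
    rintro rfl
    exact h3 (dvd_pow_self 3 (by omega))
  have hv : p ^ j ∣ val m := hR.trans (Nat.gcd_dvd_left _ _)
  obtain ⟨k, hk, hkv⟩ := pp p j m hp hj (hR.trans (Nat.gcd_dvd_right _ _))
  obtain ⟨n, hn, h1, h2⟩ := exists_n p j m hp hp3 hj hv
  have hnM : n ≤ 2 * M := by
    rcases h1 m k hv hkv with h | h
    · have h4 : n ∣ m - k := by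
        have e : ((m - k : ℕ) : ℤ) = (m : ℤ) - k := by
          rw [Nat.cast_sub hk.le]
        rw [← e] at h
        exact Int.natCast_dvd_natCast.1 h
      have := Nat.le_of_dvd (by omega) h4
      omega
    · have h4 : n ∣ m + k := by
        have e : ((m + k : ℕ) : ℤ) = (m : ℤ) + k := by push_cast; ring
        rw [← e] at h
        exact Int.natCast_dvd_natCast.1 h
      have := Nat.le_of_dvd (by omega) h4
      omega
  exact ⟨n, hn, hnM, count_le (p ^ j) n M hn hnM h1, h2⟩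

end Pool.Agent.Lib.MP_f53aaa_nt.Prim
end

section
set_option autoImplicit false

/-! The least common multiple of the numbers `8 d_m ^ 2 + 1`. -/

open Finset ArithmeticFunction

namespace Pool.Agent.Lib.MP_f53aaa_nt.Prim

theorem sum_log_R (M : ℕ) (hM : 1 ≤ M) :
    ∑ m ∈ range M, Real.log (R m) ≤ 1904 * (M * Real.sqrt M) := by
  classical
  have hMR : (1 : ℝ) ≤ M := by exact_mod_cast hM
  have hsq1 : 1 ≤ Real.sqrt M := by
    rw [Real.one_le_sqrt]
    exact hMR
  choose e r h3 hR he using R_split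
  have hr0 : ∀ m, r m ≠ 0 := by
    intro m h
    apply h3 m
    rw [h]
    exact dvd_zero 3
  have hlog3 : Real.log 3 ≤ 3 / 2 := by
    have h4 : Real.log 3 ≤ Real.log (2 ^ 2) := Real.log_le_log (by norm_num) (by norm_num)
    have := Real.log_two_lt_d9
    rw [Real.log_pow] at h4
    push_cast at h4
    linarith
  have hlog30 : 0 ≤ Real.log 3 := Real.log_nonneg (by norm_num)
  have hstep : ∀ m, Real.log (R m) ≤ 3 + ∑ Q ∈ (r m).divisors, Λ Q := by
    intro m
    rw [vonMangoldt_sum, hR m]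
    push_cast
    rw [Real.log_mul (by positivity) (by exact_mod_cast hr0 m), Real.log_pow]
    have h5 : ((e m : ℕ) : ℝ) ≤ 2 := by exact_mod_cast he m
    have h6 : ((e m : ℕ) : ℝ) * Real.log 3 ≤ 2 * (3 / 2) := by gcongr
    linarith
  set U := (range M).biUnion (fun m => (r m).divisors) with hU
  set U' := U.filter IsPrimePow with hU'
  have hdata : ∀ Q ∈ U', ∃ n : ℕ, 0 < n ∧ n ≤ 2 * M ∧
      (((range M).filter (fun m => Q ∣ val m)).card : ℝ) ≤ 6 * M / n ∧
      (∀ L : ℕ, n < (L + 1) ^ 2 → Q ∣ P L) := by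
    intro Q hQ
    rw [hU', mem_filter, hU, mem_biUnion] at hQ
    obtain ⟨⟨m, hm, hQm⟩, hQp⟩ := hQ
    have hQr : Q ∣ r m := Nat.dvd_of_mem_divisors hQm
    refine data M m Q (mem_range.1 hm) (fun h => h3 m (h.trans hQr)) hQp ?_
    rw [hR m]
    exact Dvd.dvd.mul_left hQr _
  choose! nn hn0 hnM hcard hP using hdata
  -- exchange of summation
  have hex : ∑ m ∈ range M, ∑ Q ∈ (r m).divisors, Λ Q ≤
      ∑ Q ∈ U', Λ Q * (6 * M / (nn Q : ℝ)) := by
    have h1 : ∀ m ∈ range M, ∑ Q ∈ (r m).divisors, Λ Q =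
        ∑ Q ∈ U', if Q ∣ r m then Λ Q else 0 := by
      intro m hm
      rw [← sum_filter]
      symm
      apply sum_subset_zero_on_sdiff
      · intro Q hQ
        rw [mem_filter] at hQ
        exact Nat.mem_divisors.2 ⟨hQ.2, hr0 m⟩
      · intro Q hQ
        rw [mem_sdiff, mem_filter, not_and] at hQ
        rw [vonMangoldt_eq_zero_iff]
        intro hpp
        apply hQ.2
        · rw [hU', mem_filter, hU, mem_biUnion]
          exact ⟨⟨m, hm, hQ.1⟩, hpp⟩
        · exact Nat.dvd_of_mem_divisors hQ.1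
      · intro Q _
        rfl
    rw [sum_congr rfl h1, sum_comm]
    refine sum_le_sum (fun Q hQ => ?_)
    rw [← sum_filter, sum_const, nsmul_eq_mul, mul_comm]
    refine mul_le_mul_of_nonneg_left ?_ vonMangoldt_nonneg
    refine le_trans ?_ (hcard Q hQ)
    have hsub : (range M).filter (fun m => Q ∣ r m) ⊆ (range M).filter (fun m => Q ∣ val m) := by
      intro m hm
      rw [mem_filter] at hm ⊢
      refine ⟨hm.1, hm.2.trans ?_⟩
      have : r m ∣ R m := by
        rw [hR m]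
        exact Dvd.intro_left _ rfl
      exact this.trans (Nat.gcd_dvd_left _ _)
    exact_mod_cast card_le_card hsub
  set K := Nat.log 4 (2 * M) with hK
  have hdy : ∑ Q ∈ U', Λ Q * (6 * M / (nn Q : ℝ)) ≤
      ∑ k ∈ range (K + 1), 672 * M * (2 : ℝ) ^ k := by
    have hmaps : ∀ Q ∈ U', Nat.log 4 (nn Q) ∈ range (K + 1) := by
      intro Q hQ
      rw [mem_range, Nat.lt_succ_iff, hK]
      exact Nat.log_mono_right (hnM Q hQ)
    rw [← sum_fiberwise_of_maps_to hmaps]
    refine sum_le_sum (fun k _ => ?_)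
    have h1 : ∑ Q ∈ U'.filter (fun Q => Nat.log 4 (nn Q) = k), Λ Q * (6 * M / (nn Q : ℝ)) ≤
        ∑ Q ∈ U'.filter (fun Q => Nat.log 4 (nn Q) = k), Λ Q * (6 * M / (4 : ℝ) ^ k) := by
      refine sum_le_sum (fun Q hQ => ?_)
      rw [mem_filter] at hQ
      refine mul_le_mul_of_nonneg_left ?_ vonMangoldt_nonneg
      have h2 : 4 ^ k ≤ nn Q := by
        rw [← hQ.2]
        exact Nat.pow_log_le_self 4 (hn0 Q hQ.1).ne'
      have h3 : ((4 : ℝ)) ^ k ≤ (nn Q : ℝ) := by exact_mod_cast h2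
      exact div_le_div_of_nonneg_left (by positivity) (by positivity) h3
    refine h1.trans ?_
    rw [← sum_mul]
    have h4 : ∑ Q ∈ U'.filter (fun Q => Nat.log 4 (nn Q) = k), Λ Q ≤
        Real.log (P (2 ^ (k + 1))) := by
      rw [← vonMangoldt_sum]
      refine sum_le_sum_of_subset_of_nonneg ?_ (fun _ _ _ => vonMangoldt_nonneg)
      intro Q hQ
      rw [mem_filter] at hQ
      refine Nat.mem_divisors.2 ⟨hP Q hQ.1 _ ?_, (P_pos _).ne'⟩
      have h5 : nn Q < 4 ^ (k + 1) := by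
        rw [← hQ.2]
        exact Nat.lt_pow_succ_log_self (by norm_num) _
      have h6 : 4 ^ (k + 1) = (2 ^ (k + 1)) ^ 2 := by
        rw [← pow_mul, mul_comm, pow_mul]
        norm_num
      rw [h6] at h5
      refine h5.trans_le (Nat.pow_le_pow_left (by omega) 2)
    have h7 := log_P (2 ^ (k + 1)) (by
      rw [pow_succ]
      have : 1 ≤ 2 ^ k := Nat.one_le_pow _ _ (by norm_num)
      omega)
    have h8 : (14 : ℝ) * ((2 ^ (k + 1) : ℕ) : ℝ) ^ 3 = 112 * (2 ^ k * 4 ^ k) := by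
      push_cast
      have : (4 : ℝ) ^ k = (2 ^ k) ^ 2 := by
        rw [← pow_mul, mul_comm, pow_mul]
        norm_num
      rw [this]
      ring
    rw [h8] at h7
    calc (∑ Q ∈ U'.filter (fun Q => Nat.log 4 (nn Q) = k), Λ Q) * (6 * M / (4 : ℝ) ^ k)
        ≤ (112 * (2 ^ k * 4 ^ k)) * (6 * M / (4 : ℝ) ^ k) :=
          mul_le_mul_of_nonneg_right (h4.trans h7) (by positivity)
      _ = 672 * M * (2 : ℝ) ^ k := by
          field_simp
          ring
  have hgeo : ∑ k ∈ range (K + 1), 672 * (M : ℝ) * (2 : ℝ) ^ k ≤ 1901 * (M * Real.sqrt M) := by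
    rw [← mul_sum, geom_sum_eq (by norm_num)]
    have h1 : ((2 : ℝ) ^ K) ^ 2 ≤ 2 * M := by
      have h2 : 4 ^ K ≤ 2 * M := Nat.pow_log_le_self 4 (by omega)
      have h3 : ((4 : ℝ)) ^ K ≤ 2 * M := by exact_mod_cast h2
      rw [← pow_mul, mul_comm, pow_mul]
      norm_num
      exact h3
    have h2 : (2 : ℝ) ^ K ≤ 1.4143 * Real.sqrt M := by
      have h3 : ((2 : ℝ) ^ K) ^ 2 ≤ (1.4143 * Real.sqrt M) ^ 2 := by
        rw [mul_pow, Real.sq_sqrt (by positivity)]
        nlinarith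
      exact (pow_le_pow_iff_left₀ (by positivity) (by positivity) (by norm_num)).1 h3
    have h3 : ((2 : ℝ) ^ (K + 1) - 1) / (2 - 1) ≤ 2 * (1.4143 * Real.sqrt M) := by
      rw [pow_succ]
      norm_num
      linarith
    calc 672 * (M : ℝ) * (((2 : ℝ) ^ (K + 1) - 1) / (2 - 1))
        ≤ 672 * (M : ℝ) * (2 * (1.4143 * Real.sqrt M)) :=
          mul_le_mul_of_nonneg_left h3 (by positivity)
      _ ≤ 1901 * (M * Real.sqrt M) := by
          have : 0 ≤ (M : ℝ) * Real.sqrt M := by positivity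
          nlinarith
  calc ∑ m ∈ range M, Real.log (R m)
      ≤ ∑ m ∈ range M, (3 + ∑ Q ∈ (r m).divisors, Λ Q) := sum_le_sum (fun m _ => hstep m)
    _ = 3 * M + ∑ m ∈ range M, ∑ Q ∈ (r m).divisors, Λ Q := by
        rw [sum_add_distrib, sum_const, card_range, nsmul_eq_mul]
        ring
    _ ≤ 3 * M + 1901 * (M * Real.sqrt M) := by linarith [hex.trans (hdy.trans hgeo)]
    _ ≤ 1904 * (M * Real.sqrt M) := by nlinarith

/-! ### size of the values -/

theorem pell_real (m : ℕ) : ((pell m).1 : ℝ) + (pell m).2 * Real.sqrt 8 = (3 + Real.sqrt 8) ^ m := by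
  have h8 : Real.sqrt 8 ^ 2 = 8 := Real.sq_sqrt (by norm_num)
  induction m with
  | zero => simp [pell]
  | succ m ih =>
    rw [pow_succ, ← ih]
    simp only [pell]
    push_cast
    linear_combination (-((pell m).2 : ℝ)) * h8

theorem val_bounds (m : ℕ) : 2 * (3 + Real.sqrt 8) ^ (2 * m) ≤ (val m : ℝ) ∧
    (val m : ℝ) ≤ 9 * (3 + Real.sqrt 8) ^ (2 * m) := by
  have h8 : Real.sqrt 8 ^ 2 = 8 := Real.sq_sqrt (by norm_num)
  have hs : 0 ≤ Real.sqrt 8 := Real.sqrt_nonneg 8
  have h1 := pell_real m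
  have h2 : ((pell m).1 : ℝ) ^ 2 = 8 * (pell m).2 ^ 2 + 1 := by exact_mod_cast pell_eq m
  have hd : (0 : ℝ) ≤ (pell m).1 := by positivity
  have hb : (0 : ℝ) ≤ (pell m).2 := by positivity
  have h3 : ((pell m).2 : ℝ) * Real.sqrt 8 ≤ (pell m).1 := by
    by_contra hlt
    push Not at hlt
    nlinarith
  have h4 : (3 + Real.sqrt 8) ^ (2 * m) = ((3 + Real.sqrt 8) ^ m) ^ 2 := by
    rw [← pow_mul, mul_comm]
  have hv : (val m : ℝ) = 8 * ((pell m).1 : ℝ) ^ 2 + 1 := by
    unfold val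
    push_cast
    ring
  rw [h4, ← h1, hv]
  have h5 : 0 ≤ ((pell m).2 : ℝ) * Real.sqrt 8 := by positivity
  have h6 : (1 : ℝ) ≤ (pell m).1 := by exact_mod_cast pell_one_le m
  constructor <;> nlinarith

theorem log_alpha : 3 / 2 ≤ Real.log (3 + Real.sqrt 8) ∧ Real.log (3 + Real.sqrt 8) ≤ 2 := by
  have h8 : Real.sqrt 8 ^ 2 = 8 := Real.sq_sqrt (by norm_num)
  have hs : 0 ≤ Real.sqrt 8 := Real.sqrt_nonneg 8
  have h1 : 2.8 ≤ Real.sqrt 8 := by
    by_contra h
    push Not at h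
    nlinarith
  have h2 : Real.sqrt 8 ≤ 3 := by
    by_contra h
    push Not at h
    nlinarith
  have e1 := Real.exp_one_lt_d9
  have e2 := Real.exp_one_gt_d9
  constructor
  · rw [Real.le_log_iff_exp_le (by positivity)]
    have h3 : Real.exp (3 / 2) ^ 2 ≤ (3 + Real.sqrt 8) ^ 2 := by
      have h4 : Real.exp (3 / 2) ^ 2 = Real.exp 1 ^ 3 := by
        rw [← Real.exp_nat_mul, ← Real.exp_nat_mul]
        congr 1
        norm_num
      rw [h4]
      have h5 : Real.exp 1 ^ 3 ≤ 2.7182818286 ^ 3 :=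
        pow_le_pow_left₀ (Real.exp_pos 1).le e1.le 3
      nlinarith
    exact (pow_le_pow_iff_left₀ (Real.exp_pos _).le (by positivity) (by norm_num)).1 h3
  · rw [Real.log_le_iff_le_exp (by positivity)]
    have h4 : Real.exp 2 = Real.exp 1 ^ 2 := by
      rw [← Real.exp_nat_mul]
      congr 1
      norm_num
    rw [h4]
    nlinarith

theorem log_val (m : ℕ) : 2 * m * Real.log (3 + Real.sqrt 8) ≤ Real.log (val m) ∧
    Real.log (val m) ≤ 2 * m * Real.log (3 + Real.sqrt 8) + 3 := by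
  obtain ⟨h1, h2⟩ := val_bounds m
  have hα : 0 < (3 + Real.sqrt 8) ^ (2 * m) := by positivity
  have hv : (0 : ℝ) < val m := by exact_mod_cast val_pos m
  have e : Real.log ((3 + Real.sqrt 8) ^ (2 * m)) = 2 * m * Real.log (3 + Real.sqrt 8) := by
    rw [Real.log_pow]
    push_cast
    ring
  constructor
  · rw [← e]
    exact Real.log_le_log hα (by linarith)
  · have h3 := Real.log_le_log hv h2
    rw [Real.log_mul (by norm_num) hα.ne', e] at h3
    have h4 : Real.log 9 ≤ 3 := by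
      have h5 : Real.log 9 ≤ Real.log (2 ^ 4) := Real.log_le_log (by norm_num) (by norm_num)
      have := Real.log_two_lt_d9
      rw [Real.log_pow] at h5
      push_cast at h5
      linarith
    linarith

theorem sum_two_mul (M : ℕ) : ∑ m ∈ range M, (2 * (m : ℝ)) = M * (M - 1) := by
  induction M with
  | zero => simp
  | succ M ih =>
    rw [sum_range_succ, ih]
    push_cast
    ring

theorem main1 (M : ℕ) (hM : 1 ≤ M) :
    |Real.log (Lc M) - (M : ℝ) ^ 2 * Real.log (3 + Real.sqrt 8)| ≤ 2000 * (M * Real.sqrt M) := by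
  have hMR : (1 : ℝ) ≤ M := by exact_mod_cast hM
  have hsq1 : 1 ≤ Real.sqrt M := by
    rw [Real.one_le_sqrt]
    exact hMR
  obtain ⟨hα1, hα2⟩ := log_alpha
  set α := Real.log (3 + Real.sqrt 8) with hα
  have h1 := sum_log_R M hM
  have h0 : 0 ≤ ∑ m ∈ range M, Real.log (R m) := by
    refine sum_nonneg (fun m _ => Real.log_nonneg ?_)
    exact_mod_cast R_pos m
  have h2 : ∑ m ∈ range M, (2 * (m : ℝ) * α) ≤ ∑ m ∈ range M, Real.log (val m) :=
    sum_le_sum (fun m _ => (log_val m).1)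
  have h3 : ∑ m ∈ range M, Real.log (val m) ≤ ∑ m ∈ range M, (2 * (m : ℝ) * α + 3) :=
    sum_le_sum (fun m _ => (log_val m).2)
  rw [sum_add_distrib, sum_const, card_range, nsmul_eq_mul] at h3
  rw [← sum_mul, sum_two_mul] at h2 h3
  rw [log_Lc, abs_le]
  have h4 : (M : ℝ) ≤ M * Real.sqrt M := by nlinarith
  constructor <;> nlinarith

theorem main2 (M : ℕ) (T : ℝ) (hT : 0 < T) :
    (((range M).filter (fun m => T * Real.sqrt M < Real.log (R m))).card : ℝ) ≤
      2000 * M / T := by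
  rcases Nat.eq_zero_or_pos M with h0 | hM
  · subst h0
    simp
  have hMR : (1 : ℝ) ≤ M := by exact_mod_cast hM
  have hsq : 0 < Real.sqrt M := Real.sqrt_pos.2 (by linarith)
  have h1 := sum_log_R M hM
  have h2 : ∑ m ∈ (range M).filter (fun m => T * Real.sqrt M < Real.log (R m)),
      (T * Real.sqrt M) ≤ ∑ m ∈ range M, Real.log (R m) := by
    refine (sum_le_sum (fun m hm => (mem_filter.1 hm).2.le)).trans ?_
    refine sum_le_sum_of_subset_of_nonneg (filter_subset _ _) (fun m _ _ => ?_)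
    exact Real.log_nonneg (by exact_mod_cast R_pos m)
  rw [sum_const, nsmul_eq_mul] at h2
  rw [le_div_iff₀ hT]
  have h3 : (((range M).filter (fun m => T * Real.sqrt M < Real.log (R m))).card : ℝ) * T *
      Real.sqrt M ≤ 2000 * M * Real.sqrt M := by
    have : 0 ≤ (M : ℝ) * Real.sqrt M := by positivity
    nlinarith
  exact le_of_mul_le_mul_right h3 hsq

theorem bad_R (m : ℕ) (h : ¬ ∃ p j : ℕ, p.Prime ∧ p ^ j ∣ val m ∧ ∀ k < m, ¬ p ^ j ∣ val k) :
    m = 0 ∨ R m = val m := by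
  rcases Nat.eq_zero_or_pos m with h0 | hm
  · exact Or.inl h0
  right
  have hd : val m ∣ Lc m := by
    rw [Nat.dvd_iff_prime_pow_dvd_dvd]
    intro p j hp hj
    by_contra hno
    apply h
    refine ⟨p, j, hp, hj, fun k hk hkd => hno ?_⟩
    exact hkd.trans (Finset.dvd_lcm (mem_range.2 hk))
  exact Nat.gcd_eq_left hd

open Classical in
theorem main3 (M : ℕ) :
    (((range M).filter (fun m => ¬ ∃ p j : ℕ, p.Prime ∧ p ^ j ∣ val m ∧
      ∀ k < m, ¬ p ^ j ∣ val k)).card : ℝ) ≤ 60 * (M : ℝ) ^ (3 / 4 : ℝ) := by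
  rcases Nat.eq_zero_or_pos M with h0 | hM
  · subst h0
    simp
  have hMR : (1 : ℝ) ≤ M := by exact_mod_cast hM
  have hM0 : (0 : ℝ) < M := by linarith
  set B := (range M).filter (fun m => ¬ ∃ p j : ℕ, p.Prime ∧ p ^ j ∣ val m ∧
      ∀ k < m, ¬ p ^ j ∣ val k) with hB
  have h1 := sum_log_R M hM
  obtain ⟨hα1, hα2⟩ := log_alpha
  have h2 : ∑ m ∈ B, (3 * (m : ℝ)) ≤ ∑ m ∈ range M, Real.log (R m) := by
    refine le_trans (sum_le_sum (fun m hm => ?_)) (sum_le_sum_of_subset_of_nonneg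
      (filter_subset _ _) (fun m _ _ => ?_))
    · rcases bad_R m (mem_filter.1 hm).2 with h3 | h3
      · subst h3
        simp only [Nat.cast_zero, mul_zero]
        exact Real.log_nonneg (by exact_mod_cast R_pos 0)
      · rw [h3]
        have h4 := (log_val m).1
        have h5 : (0 : ℝ) ≤ m := by positivity
        nlinarith
    · exact Real.log_nonneg (by exact_mod_cast R_pos m)
  -- lower bound
  obtain ⟨β, hβ⟩ : ∃ β, β = B.card := ⟨_, rfl⟩
  obtain ⟨h, hh⟩ : ∃ h, h = β / 2 := ⟨_, rfl⟩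
  have h3 : β - h ≤ (B \ range h).card := by
    have := card_sdiff_add_card B (range h)
    have h4 : B.card ≤ (B ∪ range h).card := card_le_card subset_union_left
    rw [card_range] at this
    omega
  have h4 : ((β - h : ℕ) : ℝ) * h ≤ ∑ m ∈ B, (m : ℝ) := by
    have h5 : ∑ m ∈ B \ range h, (m : ℝ) ≤ ∑ m ∈ B, (m : ℝ) :=
      sum_le_sum_of_subset_of_nonneg sdiff_subset (fun _ _ _ => by positivity)
    refine le_trans ?_ h5
    have h6 : ∑ m ∈ B \ range h, (h : ℝ) ≤ ∑ m ∈ B \ range h, (m : ℝ) := by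
      refine sum_le_sum (fun m hm => ?_)
      rw [mem_sdiff, mem_range, not_lt] at hm
      exact_mod_cast hm.2
    rw [sum_const, nsmul_eq_mul] at h6
    refine le_trans ?_ h6
    have h7 : ((β - h : ℕ) : ℝ) ≤ ((B \ range h).card : ℝ) := by exact_mod_cast h3
    exact mul_le_mul_of_nonneg_right h7 (by positivity)
  have h5 : β * β ≤ 4 * ((β - h) * h) + 1 := by
    rcases Nat.even_or_odd β with he | he
    · obtain ⟨c, hc⟩ := he
      have : h = c := by omega
      subst this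
      have e : β - h = h := by omega
      rw [e, hc]
      nlinarith
    · obtain ⟨c, hc⟩ := he
      have : h = c := by omega
      subst this
      have e : β - h = h + 1 := by omega
      rw [e, hc]
      nlinarith
  have h6 : (β : ℝ) * β ≤ 4 * (((β - h : ℕ) : ℝ) * h) + 1 := by exact_mod_cast h5
  rw [← mul_sum] at h2
  have hsq1 : 1 ≤ Real.sqrt M := by
    rw [Real.one_le_sqrt]
    exact hMR
  have h7 : 1 ≤ (M : ℝ) * Real.sqrt M := by nlinarith
  have h8 : (β : ℝ) ^ 2 ≤ (60 * (M : ℝ) ^ (3 / 4 : ℝ)) ^ 2 := by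
    have e : ((M : ℝ) ^ (3 / 4 : ℝ)) ^ 2 = M * Real.sqrt M := by
      rw [Real.sqrt_eq_rpow, ← Real.rpow_natCast, ← Real.rpow_mul hM0.le]
      nth_rewrite 2 [← Real.rpow_one (M : ℝ)]
      rw [← Real.rpow_add hM0]
      norm_num
    rw [mul_pow, e]
    nlinarith
  rw [← hβ]
  exact (pow_le_pow_iff_left₀ (by positivity) (by positivity) (by norm_num)).1 h8

end Pool.Agent.Lib.MP_f53aaa_nt.Prim
end

section
set_option autoImplicit false

/-! The numbers `8 d_m ^ 2 + 1`, `m < M`, have at least `M - 35 M ^ (3/4)` different prime factors. -/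

open Finset

namespace Pool.Agent.Lib.MP_f53aaa_nt.Prim

theorem sum_ge (J : Finset ℕ) : (J.card : ℝ) * (J.card - 1) ≤ ∑ m ∈ J, 2 * (m : ℝ) := by
  induction J using Finset.induction_on_max with
  | empty => simp
  | insert a s hmax ih =>
    have ha : a ∉ s := fun h => lt_irrefl a (hmax a h)
    have hc : s.card ≤ a := by
      have : s ⊆ range a := fun x hx => mem_range.2 (hmax x hx)
      simpa using card_le_card this
    rw [sum_insert ha, card_insert_of_notMem ha]
    have hc' : (s.card : ℝ) ≤ a := by exact_mod_cast hc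
    push_cast
    nlinarith

theorem log_alpha' : (17 : ℝ) / 10 ≤ Real.log (3 + Real.sqrt 8) := by
  have h8 : Real.sqrt 8 ^ 2 = 8 := Real.sq_sqrt (by norm_num)
  have hs : 0 ≤ Real.sqrt 8 := Real.sqrt_nonneg 8
  have h1 : 2.8 ≤ Real.sqrt 8 := by
    by_contra h
    push Not at h
    nlinarith
  have e1 := Real.exp_one_lt_d9
  rw [Real.le_log_iff_exp_le (by positivity)]
  have h3 : Real.exp (17 / 10) ^ 10 ≤ (3 + Real.sqrt 8) ^ 10 := by
    have h4 : Real.exp (17 / 10) ^ 10 = Real.exp 1 ^ 17 := by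
      rw [← Real.exp_nat_mul, ← Real.exp_nat_mul]
      congr 1
      norm_num
    rw [h4]
    have h5 : Real.exp 1 ^ 17 ≤ 2.7182818286 ^ 17 :=
      pow_le_pow_left₀ (Real.exp_pos 1).le e1.le 17
    have h6 : (5.8 : ℝ) ^ 10 ≤ (3 + Real.sqrt 8) ^ 10 :=
      pow_le_pow_left₀ (by norm_num) (by linarith) 10
    refine h5.trans (le_trans (by norm_num) h6)
  exact (pow_le_pow_iff_left₀ (Real.exp_pos _).le (by positivity) (by norm_num)).1 h3

/-- all but `35 M ^ (3/4)` of the `m < M` have their own prime: there is a set `I` of `m < M` and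
an injective choice of a prime factor of `val m` for `m ∈ I`. -/
theorem own_prime (M : ℕ) : ∃ (I : Finset ℕ) (g : ℕ → ℕ), I ⊆ range M ∧
    (M : ℝ) - 35 * (M : ℝ) ^ (3 / 4 : ℝ) ≤ (I.card : ℝ) ∧
    (∀ m ∈ I, (g m).Prime ∧ g m ∣ val m) ∧ Set.InjOn g I := by
  classical
  rcases Nat.eq_zero_or_pos M with h0 | hM
  · subst h0
    refine ⟨∅, id, by simp, ?_, by simp, by simp⟩
    simp only [Nat.cast_zero, card_empty]
    rw [Real.zero_rpow (by norm_num)]
    norm_num
  have hMR : (1 : ℝ) ≤ M := by exact_mod_cast hM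
  have hM0 : (0 : ℝ) < M := by linarith
  have hL0 := Lc_ne M
  have hchoose : ∀ p ∈ (Lc M).primeFactors, ∃ k, k < M ∧ p ^ (Lc M).factorization p ∣ val k := by
    intro p hp
    have hpp := Nat.prime_of_mem_primeFactors hp
    have hj : 1 ≤ (Lc M).factorization p :=
      (hpp.dvd_iff_one_le_factorization hL0).mp (Nat.dvd_of_mem_primeFactors hp)
    exact pp p _ M hpp hj (Nat.ordProj_dvd _ _)
  choose! f hf using hchoose
  set I := (Lc M).primeFactors.image f with hI
  have hIM : I ⊆ range M := by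
    intro m hm
    rw [hI, mem_image] at hm
    obtain ⟨p, hp, rfl⟩ := hm
    exact mem_range.2 (hf p hp).1
  have hg : ∀ m ∈ I, ∃ p, p ∈ (Lc M).primeFactors ∧ f p = m := by
    intro m hm
    rw [hI, mem_image] at hm
    exact hm
  choose! g hg1 hg2 using hg
  refine ⟨I, g, hIM, ?_, ?_, ?_⟩
  · -- the count
    have h1 : Real.log (Lc M) ≤ ∑ m ∈ I, Real.log (val m) := by
      have e1 : (Lc M) = ∏ p ∈ (Lc M).primeFactors, p ^ (Lc M).factorization p := by
        have := Nat.prod_factorization_pow_eq_self hL0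
        rw [Finsupp.prod, Nat.support_factorization] at this
        exact this.symm
      have e2 : ∏ p ∈ (Lc M).primeFactors, p ^ (Lc M).factorization p =
          ∏ m ∈ I, ∏ p ∈ (Lc M).primeFactors.filter (fun p => f p = m),
            p ^ (Lc M).factorization p :=
        (prod_fiberwise_of_maps_to (fun p hp => mem_image_of_mem f hp) _).symm
      have h2 : ∀ m ∈ I, ∏ p ∈ (Lc M).primeFactors.filter (fun p => f p = m),
            p ^ (Lc M).factorization p ≤ val m := by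
        intro m _
        refine Nat.le_of_dvd (val_pos m) ?_
        apply Finset.prod_dvd_of_isRelPrime
        · intro p hp q hq hpq
          have hp' := Nat.prime_of_mem_primeFactors (mem_filter.1 hp).1
          have hq' := Nat.prime_of_mem_primeFactors (mem_filter.1 hq).1
          exact Nat.coprime_iff_isRelPrime.1
            (Nat.Coprime.pow _ _ ((Nat.coprime_primes hp' hq').mpr hpq))
        · intro p hp
          rw [mem_filter] at hp
          rw [← hp.2]
          exact (hf p hp.1).2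
      have h3 : Lc M ≤ ∏ m ∈ I, val m := by
        calc Lc M = _ := e1
          _ = _ := e2
          _ ≤ ∏ m ∈ I, val m := prod_le_prod' h2
      have h4 : Real.log (Lc M) ≤ Real.log ((∏ m ∈ I, val m : ℕ) : ℝ) := by
        apply Real.log_le_log
        · exact_mod_cast Nat.pos_of_ne_zero hL0
        · exact_mod_cast h3
      rw [Nat.cast_prod, Real.log_prod (fun m _ => by
        have := val_pos m
        exact_mod_cast this.ne')] at h4
      exact h4
    have h2 := log_Lc M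
    have h3 := sum_log_R M hM
    have h4 : ∑ m ∈ range M \ I, Real.log (val m) + ∑ m ∈ I, Real.log (val m) =
        ∑ m ∈ range M, Real.log (val m) := sum_sdiff hIM
    have h5 : ∑ m ∈ range M \ I, Real.log (val m) ≤ 1904 * (M * Real.sqrt M) := by linarith
    have h6 : (17 / 10 : ℝ) * ∑ m ∈ range M \ I, 2 * (m : ℝ) ≤
        ∑ m ∈ range M \ I, Real.log (val m) := by
      rw [mul_sum]
      refine sum_le_sum (fun m _ => ?_)
      have h7 := (log_val m).1
      have h8 := log_alpha'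
      have h9 : (0 : ℝ) ≤ m := by positivity
      nlinarith
    have h7 := sum_ge (range M \ I)
    have hcard : ((range M \ I).card : ℝ) = M - I.card := by
      rw [card_sdiff_of_subset hIM, card_range, Nat.cast_sub]
      simpa using card_le_card hIM
    set k : ℝ := ((range M \ I).card : ℝ) with hk
    have hkI : (I.card : ℝ) = M - k := by rw [hcard]; ring
    rw [hkI]
    suffices hs : k ≤ 35 * (M : ℝ) ^ (3 / 4 : ℝ) by linarith
    by_contra hcon
    push Not at hcon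
    set X := (M : ℝ) ^ (3 / 4 : ℝ) with hX
    have hX1 : 1 ≤ X := Real.one_le_rpow hMR (by norm_num)
    have e : X ^ 2 = M * Real.sqrt M := by
      rw [hX, Real.sqrt_eq_rpow, ← Real.rpow_natCast, ← Real.rpow_mul hM0.le]
      nth_rewrite 2 [← Real.rpow_one (M : ℝ)]
      rw [← Real.rpow_add hM0]
      norm_num
    rw [← e] at h5
    nlinarith
  · intro m hm
    have hp := hg1 m hm
    have hpp := Nat.prime_of_mem_primeFactors hp
    refine ⟨hpp, ?_⟩
    have h1 := (hf (g m) hp).2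
    rw [hg2 m hm] at h1
    refine (dvd_pow_self _ ?_).trans h1
    have := (hpp.dvd_iff_one_le_factorization hL0).mp (Nat.dvd_of_mem_primeFactors hp)
    omega
  · intro a ha b hb hab
    have h1 := hg2 a ha
    rw [← h1, hab, hg2 b hb]

/-- at least `M - 35 M ^ (3/4)` different primes divide the product of `val 0, ..., val (M-1)`. -/
theorem distinct (M : ℕ) : (M : ℝ) - 35 * (M : ℝ) ^ (3 / 4 : ℝ) ≤
    ((∏ m ∈ range M, val m).primeFactors.card : ℝ) := by
  classical
  obtain ⟨I, g, hI, hc, hg, hinj⟩ := own_prime M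
  refine hc.trans ?_
  have h1 : I.card = (I.image g).card := (card_image_of_injOn hinj).symm
  rw [h1]
  have h2 : I.image g ⊆ (∏ m ∈ range M, val m).primeFactors := by
    intro p hp
    rw [mem_image] at hp
    obtain ⟨m, hm, rfl⟩ := hp
    refine Nat.mem_primeFactors.2 ⟨(hg m hm).1, ?_, ?_⟩
    · exact (hg m hm).2.trans (dvd_prod_of_mem _ (hI hm))
    · exact prod_ne_zero_iff.2 (fun m _ => (val_pos m).ne')
  exact_mod_cast card_le_card h2

open Classical in
/-- the `m < M` for which all prime factors of `val m` are at most `y`. -/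
theorem smooth_count (M y : ℕ) :
    (((range M).filter (fun m => ∀ p : ℕ, p.Prime → p ∣ val m → p ≤ y)).card : ℝ) ≤
      35 * (M : ℝ) ^ (3 / 4 : ℝ) + (Nat.primeCounting y : ℝ) := by
  obtain ⟨I, g, hI, hc, hg, hinj⟩ := own_prime M
  set B := (range M).filter (fun m => ∀ p : ℕ, p.Prime → p ∣ val m → p ≤ y) with hB
  have h1 : B.card ≤ (B ∩ I).card + (range M \ I).card := by
    have : B ⊆ (B ∩ I) ∪ (range M \ I) := by
      intro m hm
      by_cases hmI : m ∈ I
      · exact mem_union_left _ (mem_inter.2 ⟨hm, hmI⟩)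
      · exact mem_union_right _ (mem_sdiff.2 ⟨(mem_filter.1 hm).1, hmI⟩)
    exact (card_le_card this).trans (card_union_le _ _)
  have h2 : (B ∩ I).card ≤ Nat.primeCounting y := by
    rw [← card_image_of_injOn (s := B ∩ I) (f := g) (fun a ha b hb hab =>
      hinj (mem_inter.1 ha).2 (mem_inter.1 hb).2 hab)]
    have h3 : (B ∩ I).image g ⊆ (range (y + 1)).filter Nat.Prime := by
      intro p hp
      rw [mem_image] at hp
      obtain ⟨m, hm, rfl⟩ := hp
      rw [mem_inter] at hm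
      have h4 := hg m hm.2
      refine mem_filter.2 ⟨mem_range.2 ?_, h4.1⟩
      exact Nat.lt_succ_of_le ((mem_filter.1 hm.1).2 _ h4.1 h4.2)
    refine (card_le_card h3).trans ?_
    rw [Nat.primeCounting, Nat.primeCounting', Nat.count_eq_card_filter_range]
  have h3 : ((range M \ I).card : ℝ) = M - I.card := by
    rw [card_sdiff_of_subset hI, card_range, Nat.cast_sub]
    simpa using card_le_card hI
  have h4 : (B.card : ℝ) ≤ ((B ∩ I).card : ℝ) + ((range M \ I).card : ℝ) := by exact_mod_cast h1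
  have h5 : ((B ∩ I).card : ℝ) ≤ (Nat.primeCounting y : ℝ) := by exact_mod_cast h2
  linarith

end Pool.Agent.Lib.MP_f53aaa_nt.Prim
end
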