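import Pool.Agent.Lib.MP_f53aaa_nt.Prim.Distinct

set_option autoImplicit false

/-! Two different numbers `8 d_m ^ 2 + 1`, `8 d_n ^ 2 + 1` have a small greatest common divisor. -/

open Finset

namespace Pool.Agent.Lib.MP_f53aaa_nt.Prim

/-- The value of `E` in a ring containing a square root of two. -/
theorem E_eq {A : Type*} [CommRing A] (s : A) (hs : s ^ 2 = 2) (a b : ℕ) :
    ((E a b : ℤ) : A) = ((-2) ^ a - ((1 + s) ^ 4) ^ b) * ((-2) ^ a - ((1 - s) ^ 4) ^ b) := by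
  obtain ⟨hc, -⟩ := pell_cast s hs (2 * b)
  have e1 : (1 + s) ^ (2 * (2 * b)) = ((1 + s) ^ 4) ^ b := by
    rw [← pow_mul]
    congr 1
    ring
  have e2 : (1 - s) ^ (2 * (2 * b)) = ((1 - s) ^ 4) ^ b := by
    rw [← pow_mul]
    congr 1
    ring
  have e3 : ((1 + s) ^ 4) ^ b * ((1 - s) ^ 4) ^ b = 1 := by
    have : (1 + s) * (1 - s) = -1 := by linear_combination -hs
    rw [← mul_pow, ← mul_pow, this]
    norm_num
  rw [e1, e2] at hc
  have e4 : (4 : A) ^ a = ((-2) ^ a) ^ 2 := by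
    rw [← pow_mul, mul_comm, pow_mul]
    norm_num
  generalize ((1 + s) ^ 4) ^ b = G at hc e3 ⊢
  generalize ((1 - s) ^ 4) ^ b = G' at hc e3 ⊢
  unfold E
  push_cast
  rw [e4]
  linear_combination (-(-2) ^ a) * hc - e3

/-- One pair `(a, b)`, at most the square root of `D`, for all moduli in which
`β = (1 + s) ^ 4` satisfies `β ^ m = -2` and `β ^ D = 1`. -/
theorem exists_ab (m D : ℕ) (hD : 0 < D) : ∃ a b : ℕ, a ≤ Nat.sqrt D ∧ b ≤ Nat.sqrt D ∧
    ¬ (a = 0 ∧ b = 0) ∧ ∀ (Q : ℕ) (s : ZMod Q), s ^ 2 = 2 → (1 + s) ^ (4 * m) = -2 →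
      (1 + s) ^ (4 * D) = 1 → ((E a b : ℤ) : ZMod Q) = 0 := by
  set L := Nat.sqrt D with hL
  have hlt : D < (L + 1) ^ 2 := by
    have := Nat.lt_succ_sqrt D
    rw [sq]
    exact this
  obtain ⟨x, hx, y, hy, hxy, hf⟩ := exists_ne_map_eq_of_card_lt_of_maps_to
    (s := (range (L + 1)) ×ˢ (range (L + 1))) (t := range D)
    (f := fun x : ℕ × ℕ => (m * x.1 + x.2) % D)
    (by rw [card_product, card_range, card_range, ← sq]; exact hlt)
    (fun x _ => by
      simp only [coe_range, Set.mem_Iio]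
      exact Nat.mod_lt _ hD)
  have hgen : ∀ x y : ℕ × ℕ, x ∈ (range (L + 1)) ×ˢ (range (L + 1)) →
      y ∈ (range (L + 1)) ×ˢ (range (L + 1)) → x ≠ y → y.1 ≤ x.1 →
      (m * x.1 + x.2) % D = (m * y.1 + y.2) % D → ∃ a b : ℕ, a ≤ L ∧ b ≤ L ∧
      ¬ (a = 0 ∧ b = 0) ∧ ∀ (Q : ℕ) (s : ZMod Q), s ^ 2 = 2 → (1 + s) ^ (4 * m) = -2 →
        (1 + s) ^ (4 * D) = 1 → ((E a b : ℤ) : ZMod Q) = 0 := by
    intro x y hx hy hxy hle hf
    rw [mem_product, mem_range, mem_range] at hx hy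
    obtain ⟨a, ha⟩ : ∃ a, x.1 = y.1 + a := ⟨x.1 - y.1, by omega⟩
    have hmain : ∀ (Q : ℕ) (s : ZMod Q), s ^ 2 = 2 → (1 + s) ^ (4 * m) = -2 →
        (1 + s) ^ (4 * D) = 1 → ∃ g : (ZMod Q)ˣ, (g : ZMod Q) = (1 + s) ^ 4 ∧
        ((g⁻¹ : (ZMod Q)ˣ) : ZMod Q) = (1 - s) ^ 4 ∧
        ((g ^ (m * a) : (ZMod Q)ˣ) : ZMod Q) = (-2) ^ a ∧
        g ^ (m * a) * g ^ x.2 = g ^ y.2 := by
      intro Q s hs hsm hsD
      have hgg : (1 + s) ^ 4 * (1 - s) ^ 4 = 1 := by
        have : (1 + s) * (1 - s) = -1 := by linear_combination -hs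
        rw [← mul_pow, this]
        norm_num
      have hgg' : (1 - s) ^ 4 * (1 + s) ^ 4 = 1 := by rw [mul_comm]; exact hgg
      obtain ⟨g, hg1, hg2⟩ : ∃ g : (ZMod Q)ˣ, (g : ZMod Q) = (1 + s) ^ 4 ∧
          ((g⁻¹ : (ZMod Q)ˣ) : ZMod Q) = (1 - s) ^ 4 :=
        ⟨⟨(1 + s) ^ 4, (1 - s) ^ 4, hgg, hgg'⟩, rfl, rfl⟩
      refine ⟨g, hg1, hg2, ?_, ?_⟩
      · rw [pow_mul, Units.val_pow_eq_pow_val, Units.val_pow_eq_pow_val, hg1,
          ← pow_mul (1 + s) 4 m, hsm]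
      · have hgD : g ^ D = 1 := by
          ext
          rw [Units.val_pow_eq_pow_val, hg1, ← pow_mul, hsD, Units.val_one]
        have h4 : g ^ (m * x.1 + x.2) = g ^ (m * y.1 + y.2) := by
          rw [pow_eq_pow_mod _ hgD, hf, ← pow_eq_pow_mod _ hgD]
        rw [ha, mul_add, add_assoc, pow_add g (m * y.1), pow_add g (m * y.1)] at h4
        have h6 := mul_left_cancel h4
        rw [pow_add] at h6
        exact h6
    rcases Nat.le_total x.2 y.2 with hl | hl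
    · obtain ⟨b, hb⟩ : ∃ b, y.2 = x.2 + b := ⟨y.2 - x.2, by omega⟩
      refine ⟨a, b, by omega, by omega, ?_, ?_⟩
      · rintro ⟨ha0, hb0⟩
        exact hxy (Prod.ext (by omega) (by omega))
      · intro Q s hs hsm hsD
        obtain ⟨g, hg1, hg2, hga, h5⟩ := hmain Q s hs hsm hsD
        have h7 : g ^ (m * a) = g ^ b := by
          rw [hb, pow_add, mul_comm] at h5
          exact mul_left_cancel h5
        rw [E_eq s hs, ← hg1, ← Units.val_pow_eq_pow_val, ← hga, h7, sub_self, zero_mul]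
    · obtain ⟨b, hb⟩ : ∃ b, x.2 = y.2 + b := ⟨x.2 - y.2, by omega⟩
      refine ⟨a, b, by omega, by omega, ?_, ?_⟩
      · rintro ⟨ha0, hb0⟩
        exact hxy (Prod.ext (by omega) (by omega))
      · intro Q s hs hsm hsD
        obtain ⟨g, hg1, hg2, hga, h5⟩ := hmain Q s hs hsm hsD
        have h7 : g ^ (m * a) = (g⁻¹) ^ b := by
          rw [hb, add_comm, pow_add, ← mul_assoc] at h5
          have h8 : g ^ (m * a) * g ^ b = 1 := by
            have h9 : g ^ (m * a) * g ^ b * g ^ y.2 = 1 * g ^ y.2 := by rw [h5, one_mul]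
            exact mul_right_cancel h9
          rw [inv_pow]
          exact eq_inv_of_mul_eq_one_left h8
        rw [E_eq s hs, ← hg2, ← Units.val_pow_eq_pow_val, ← hga, h7, sub_self, mul_zero]
  rcases Nat.le_total y.1 x.1 with hle | hle
  · exact hgen x y hx hy hxy hle hf
  · exact hgen y x hy hx hxy.symm hle hf.symm

/-- The two types of common prime powers of `val m` and `val n`, `n < m`. -/
theorem common (m n p j : ℕ) (hmn : n < m) (hp : p.Prime) (h3 : p ≠ 3) (hj : 1 ≤ j)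
    (hm : p ^ j ∣ val m) (hn : p ^ j ∣ val n) : ∃ s : ZMod (p ^ j), s ^ 2 = 2 ∧
    (1 + s) ^ (4 * m) = -2 ∧ ((1 + s) ^ (4 * (m - n)) = 1 ∨
      ((1 + s) ^ (4 * (m + n)) = 1 ∧ (1 + s) ^ (4 * (m - n)) = 4)) := by
  have hp2 : p ≠ 2 := by
    rintro rfl
    exact not_two m ((dvd_pow_self 2 (by omega)).trans hm)
  have hco : Nat.Coprime 3 (p ^ j) := by
    refine Nat.Coprime.pow_right j ?_
    exact (Nat.coprime_primes Nat.prime_three hp).2 (Ne.symm h3)
  obtain ⟨s, hs, hsm⟩ := exists_s' (p ^ j) m hco hm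
  obtain ⟨t, ht, htn⟩ := exists_s' (p ^ j) n hco hn
  refine ⟨s, hs, hsm, ?_⟩
  have hgg : (1 + s) ^ 4 * (1 - s) ^ 4 = 1 := by
    have : (1 + s) * (1 - s) = -1 := by linear_combination -hs
    rw [← mul_pow, this]
    norm_num
  have hunit : IsUnit ((1 + s) ^ (4 * n)) := by
    refine IsUnit.pow _ ?_
    refine IsUnit.of_mul_eq_one ((1 + s) ^ 3 * (1 - s) ^ 4) ?_
    linear_combination hgg
  have hsub : (1 + s) ^ (4 * (m - n)) * (1 + s) ^ (4 * n) = -2 := by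
    rw [← pow_add, ← hsm]
    congr 1
    omega
  rcases sqrt_two p j hp hp2 s t hs ht hj with hst | hst
  · left
    rw [hst] at htn
    refine hunit.mul_right_cancel ?_
    rw [hsub, one_mul, htn]
  · right
    rw [hst, ← sub_eq_add_neg] at htn
    have e1 : (1 + s) ^ (4 * n) * (1 - s) ^ (4 * n) = 1 := by
      rw [pow_mul, pow_mul, ← mul_pow, hgg, one_pow]
    rw [htn] at e1
    constructor
    · rw [mul_add, pow_add, hsm]
      linear_combination e1
    · refine hunit.mul_right_cancel ?_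
      linear_combination hsub + 2 * e1

theorem dvd_E {p j : ℕ} (x y : ℕ) (hxy : ((E x y : ℤ) : ZMod (p ^ j)) = 0) :
    p ^ j ∣ (E x y).natAbs := by
  rw [← Int.natCast_dvd]
  exact (ZMod.intCast_zmod_eq_zero_iff_dvd _ _).1 hxy

/-- A prime power, not a power of three, that divides `val m` and `val n` divides one of two
fixed numbers. -/
theorem pp_dvd (m n : ℕ) (hmn : n < m) : ∃ a b c d : ℕ,
    a ≤ Nat.sqrt (m - n) ∧ b ≤ Nat.sqrt (m - n) ∧ ¬ (a = 0 ∧ b = 0) ∧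
    c ≤ Nat.sqrt (m + n) ∧ d ≤ Nat.sqrt (m + n) ∧ ¬ (c = 0 ∧ d = 0) ∧
    ∀ p j : ℕ, p.Prime → p ≠ 3 → 1 ≤ j → p ^ j ∣ val m → p ^ j ∣ val n →
      p ^ j ∣ (E a b).natAbs * (E c d).natAbs := by
  obtain ⟨a, b, ha, hb, hab, h1⟩ := exists_ab m (m - n) (by omega)
  obtain ⟨c, d, hc, hd, hcd, h2⟩ := exists_ab m (m + n) (by omega)
  refine ⟨a, b, c, d, ha, hb, hab, hc, hd, hcd, ?_⟩
  intro p j hp h3 hj hm hn
  obtain ⟨s, hs, hsm, h | ⟨h, -⟩⟩ := common m n p j hmn hp h3 hj hm hn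
  · exact Dvd.dvd.mul_right (dvd_E a b (h1 _ s hs hsm h)) _
  · exact Dvd.dvd.mul_left (dvd_E c d (h2 _ s hs hsm h)) _

theorem pp_dvd' (m n : ℕ) (hmn : n < m) (p j : ℕ) (hp : p.Prime) (h3 : p ≠ 3) (hj : 1 ≤ j)
    (hm : p ^ j ∣ val m) (hn : p ^ j ∣ val n) :
    p ^ j ∣ (E 0 (m - n)).natAbs * (E 2 (m - n)).natAbs := by
  obtain ⟨s, hs, hsm, h | ⟨-, h⟩⟩ := common m n p j hmn hp h3 hj hm hn
  · refine Dvd.dvd.mul_right (dvd_E 0 (m - n) ?_) _
    rw [E_eq s hs, ← pow_mul (1 + s), h, pow_zero, sub_self, zero_mul]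
  · refine Dvd.dvd.mul_left (dvd_E 2 (m - n) ?_) _
    rw [E_eq s hs, ← pow_mul (1 + s), h]
    norm_num

theorem log_two_pow (a b c d : ℕ) (h : a ^ b ≤ 2 ^ c) (ha : 0 < a) (hb : 0 < b)
    (hd : 6931471808 * c ≤ d * b) : Real.log a ≤ d / 10000000000 := by
  have h1 : ((a : ℝ)) ^ b ≤ 2 ^ c := by exact_mod_cast h
  have h2 := Real.log_le_log (by positivity) h1
  rw [Real.log_pow, Real.log_pow] at h2
  have h3 := Real.log_two_lt_d9
  have h4 : (6931471808 : ℝ) * c ≤ d * b := by exact_mod_cast hd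
  have hb' : (0 : ℝ) < b := by exact_mod_cast hb
  have hc' : (0 : ℝ) ≤ c := by positivity
  have h5 : (b : ℝ) * Real.log a ≤ b * (d / 10000000000) := by nlinarith
  exact le_of_mul_le_mul_left h5 hb'

theorem log_E (D a b : ℕ) (ha : a ≤ Nat.sqrt D) (hb : b ≤ Nat.sqrt D) (h : ¬ (a = 0 ∧ b = 0)) :
    Real.log ((E a b).natAbs : ℝ) ≤ 1.4 + 4.3 * Real.sqrt D := by
  have h0 : (0 : ℝ) < ((E a b).natAbs : ℝ) := by
    exact_mod_cast Int.natAbs_pos.2 (E_ne a b h)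
  have h1 : (((E a b).natAbs : ℕ) : ℝ) ≤ 4 * 72 ^ (Nat.sqrt D) := by
    exact_mod_cast E_le (Nat.sqrt D) a b ha hb
  have h2 := Real.log_le_log h0 h1
  rw [Real.log_mul (by norm_num) (by positivity), Real.log_pow] at h2
  have h3 := log_two_pow 4 1 2 13862943616 (by norm_num) (by norm_num) (by norm_num) (by norm_num)
  have h4 := log_two_pow 72 5 31 42975125210 (by norm_num) (by norm_num) (by norm_num)
    (by norm_num)
  push_cast at h3 h4
  have h5 : ((Nat.sqrt D : ℕ) : ℝ) ≤ Real.sqrt D := Real.nat_sqrt_le_real_sqrt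
  have h6 : (0 : ℝ) ≤ ((Nat.sqrt D : ℕ) : ℝ) := by positivity
  have h7 : (0 : ℝ) ≤ Real.log 72 := Real.log_nonneg (by norm_num)
  nlinarith

theorem log_E' (a D : ℕ) (ha : a ≤ 2) (hD : 1 ≤ D) :
    Real.log ((E a D).natAbs : ℝ) ≤ 2.1 + 3.6 * D := by
  have h0 : (0 : ℝ) < ((E a D).natAbs : ℝ) := by
    exact_mod_cast Int.natAbs_pos.2 (E_ne a D (by omega))
  have hp : ((pell (2 * D)).1 : ℤ) ≤ 36 ^ D := by
    have h3 := pell_le (2 * D)
    rw [pow_mul] at h3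
    norm_num at h3
    exact_mod_cast h3
  have hp1 : (3 : ℤ) ≤ ((pell (2 * D)).1 : ℤ) := by exact_mod_cast pell_ge (2 * D) (by omega)
  have h1 : (E a D).natAbs ≤ 8 * 36 ^ D := by
    have h2 : |E a D| ≤ 8 * 36 ^ D := by
      unfold E
      rw [abs_le]
      interval_cases a <;> norm_num <;> constructor <;> linarith
    have h9 : ((E a D).natAbs : ℤ) ≤ ((8 * 36 ^ D : ℕ) : ℤ) := by
      rw [Int.natCast_natAbs]
      push_cast
      exact h2
    exact_mod_cast h9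
  have h1' : (((E a D).natAbs : ℕ) : ℝ) ≤ 8 * 36 ^ D := by exact_mod_cast h1
  have h2 := Real.log_le_log h0 h1'
  rw [Real.log_mul (by norm_num) (by positivity), Real.log_pow] at h2
  have h3 := log_two_pow 8 1 3 20794415424 (by norm_num) (by norm_num) (by norm_num) (by norm_num)
  have h4 := log_two_pow 36 11 57 35917626642 (by norm_num) (by norm_num) (by norm_num)
    (by norm_num)
  push_cast at h3 h4
  have h6 : (0 : ℝ) ≤ (D : ℝ) := by positivity
  nlinarith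

/-- the greatest common divisor is at most nine times any number divisible by its prime powers -/
theorem gcd_le (m n F : ℕ) (hF : 0 < F) (h : ∀ p j : ℕ, p.Prime → p ≠ 3 → 1 ≤ j →
    p ^ j ∣ val m → p ^ j ∣ val n → p ^ j ∣ F) :
    Real.log (Nat.gcd (val m) (val n) : ℕ) ≤ 2.22 + Real.log F := by
  have hG : Nat.gcd (val m) (val n) ≠ 0 := (Nat.gcd_pos_of_pos_left _ (val_pos m)).ne'
  obtain ⟨e, r, h3, hGr⟩ := Nat.exists_eq_pow_mul_and_not_dvd hG 3 (by norm_num)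
  have hr0 : r ≠ 0 := fun h => h3 (by rw [h]; exact dvd_zero 3)
  have he : e ≤ 2 := by
    by_contra hcon
    have h4 : 3 ^ 3 ∣ Nat.gcd (val m) (val n) := by
      rw [hGr]
      exact Dvd.dvd.mul_right (pow_dvd_pow 3 (by omega)) r
    exact not27 m (h4.trans (Nat.gcd_dvd_left _ _))
  have hrdvd : r ∣ F := by
    rw [Nat.dvd_iff_prime_pow_dvd_dvd]
    intro p j hp hpj
    rcases Nat.eq_zero_or_pos j with hj | hj
    · rw [hj, pow_zero]
      exact one_dvd _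
    have hp3 : p ≠ 3 := by
      rintro rfl
      exact h3 ((dvd_pow_self 3 (by omega)).trans hpj)
    have hpG : p ^ j ∣ Nat.gcd (val m) (val n) := by
      rw [hGr]
      exact Dvd.dvd.mul_left hpj _
    exact h p j hp hp3 hj (hpG.trans (Nat.gcd_dvd_left _ _)) (hpG.trans (Nat.gcd_dvd_right _ _))
  have hle : r ≤ F := Nat.le_of_dvd hF hrdvd
  have h5 : Real.log (r : ℝ) ≤ Real.log F := by
    refine Real.log_le_log ?_ ?_
    · exact_mod_cast Nat.pos_of_ne_zero hr0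
    · exact_mod_cast hle
  have h10 : Real.log ((Nat.gcd (val m) (val n) : ℕ) : ℝ) = e * Real.log 3 + Real.log r := by
    rw [hGr]
    push_cast
    rw [Real.log_mul (by positivity) (by exact_mod_cast hr0), Real.log_pow]
  have hl3 := log_two_pow 3 5 8 11090354893 (by norm_num) (by norm_num) (by norm_num)
    (by norm_num)
  push_cast at hl3
  have h11 : (e : ℝ) * Real.log 3 ≤ 2.22 := by
    have hl0 : 0 ≤ Real.log 3 := Real.log_nonneg (by norm_num)
    have he' : (e : ℝ) ≤ 2 := by exact_mod_cast he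
    nlinarith
  rw [h10]
  linarith

/-- `gcd (N_m, N_n) ≤ exp (14 min (|m - n|, √(m + n)))` for `m ≠ n`. -/
theorem log_gcd (m n : ℕ) (hmn : m ≠ n) :
    Real.log (Nat.gcd (val m) (val n) : ℕ) ≤
      14 * min |(m : ℝ) - n| (Real.sqrt ((m : ℝ) + n)) := by
  wlog hlt : n < m generalizing m n
  · have := this n m hmn.symm (by omega)
    rwa [Nat.gcd_comm, add_comm (m : ℝ), abs_sub_comm]
  rw [mul_min_of_nonneg _ _ (by norm_num), le_min_iff]
  constructor
  · have hE1 : 0 < (E 0 (m - n)).natAbs := Int.natAbs_pos.2 (E_ne _ _ (by omega))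
    have hE2 : 0 < (E 2 (m - n)).natAbs := Int.natAbs_pos.2 (E_ne _ _ (by omega))
    have h1 := gcd_le m n _ (Nat.mul_pos hE1 hE2) (fun p j => pp_dvd' m n hlt p j)
    have h2 := log_E' 0 (m - n) (by norm_num) (by omega)
    have h3 := log_E' 2 (m - n) (by norm_num) (by omega)
    have hE1' : (((E 0 (m - n)).natAbs : ℕ) : ℝ) ≠ 0 := by exact_mod_cast hE1.ne'
    have hE2' : (((E 2 (m - n)).natAbs : ℕ) : ℝ) ≠ 0 := by exact_mod_cast hE2.ne'
    rw [Nat.cast_mul, Real.log_mul hE1' hE2'] at h1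
    have h4 : ((m - n : ℕ) : ℝ) = (m : ℝ) - n := Nat.cast_sub hlt.le
    have h5 : (1 : ℝ) ≤ ((m - n : ℕ) : ℝ) := by exact_mod_cast (show 1 ≤ m - n by omega)
    rw [← h4, abs_of_nonneg (by linarith)]
    linarith
  · obtain ⟨a, b, c, d, ha, hb, hab, hc, hd, hcd, hdvd⟩ := pp_dvd m n hlt
    have hE1 : 0 < (E a b).natAbs := Int.natAbs_pos.2 (E_ne a b hab)
    have hE2 : 0 < (E c d).natAbs := Int.natAbs_pos.2 (E_ne c d hcd)
    have h1 := gcd_le m n _ (Nat.mul_pos hE1 hE2) hdvd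
    have hE1' : (((E a b).natAbs : ℕ) : ℝ) ≠ 0 := by exact_mod_cast hE1.ne'
    have hE2' : (((E c d).natAbs : ℕ) : ℝ) ≠ 0 := by exact_mod_cast hE2.ne'
    rw [Nat.cast_mul, Real.log_mul hE1' hE2'] at h1
    have h6 := log_E (m - n) a b ha hb hab
    have h7 := log_E (m + n) c d hc hd hcd
    have h8 : Real.sqrt ((m - n : ℕ) : ℝ) ≤ Real.sqrt ((m : ℝ) + n) := by
      refine Real.sqrt_le_sqrt ?_
      have : ((m - n : ℕ) : ℝ) ≤ ((m + n : ℕ) : ℝ) := by
        exact_mod_cast (show m - n ≤ m + n by omega)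
      rwa [Nat.cast_add] at this
    rw [Nat.cast_add] at h7
    have h9 : 1 ≤ Real.sqrt ((m : ℝ) + n) := by
      rw [Real.one_le_sqrt]
      have : (1 : ℝ) ≤ m := by exact_mod_cast (show 1 ≤ m by omega)
      have h0 : (0 : ℝ) ≤ n := by positivity
      linarith
    linarith

end Pool.Agent.Lib.MP_f53aaa_nt.Prim
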