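import Pool.Agent.Lib.MP_f53aaa_nt.Prim.Distinct
import Pool.Agent.Lib.MP_f53aaa_nt.Prim.Gcd

/-! The values `8 d_m ^ 2 + 1` with a large old part are few: `O(sqrt M)` of the `m < M`. -/

set_option autoImplicit false

open Finset

namespace Pool.Agent.Lib.MP_f53aaa_nt.Prim

open Classical in
/-- the `m < M` for which the old part of `val m` is at least `(val m) ^ ε` -/
noncomputable def Bad (ε : ℝ) (M : ℕ) : Finset ℕ :=
  (range M).filter (fun m => (val m : ℝ) ^ ε ≤ (R m : ℝ))

/-- the bad `m` in the upper half -/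
theorem bad_half (ε : ℝ) (he : 0 < ε) (M : ℕ) (hM : 1 ≤ M) :
    (((Bad ε M).filter (fun m : ℕ => (M : ℝ) / 2 ≤ m)).card : ℝ) ≤ 1120 / ε * Real.sqrt M := by
  have hMR : (1 : ℝ) ≤ M := by exact_mod_cast hM
  have hM0 : (0 : ℝ) < M := by linarith
  have h1 := sum_log_R M hM
  have h8 := log_alpha'
  have h2 : ∑ m ∈ (Bad ε M).filter (fun m : ℕ => (M : ℝ) / 2 ≤ m), (17 / 10 * ε * (M : ℝ)) ≤
      ∑ m ∈ range M, Real.log (R m) := by
    refine le_trans (sum_le_sum (fun m hm => ?_)) (sum_le_sum_of_subset_of_nonneg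
      ((filter_subset _ _).trans (filter_subset _ _)) (fun m _ _ => ?_))
    · rw [mem_filter, Bad, mem_filter] at hm
      obtain ⟨⟨_, h3⟩, h4⟩ := hm
      have hv : (0 : ℝ) < val m := by exact_mod_cast val_pos m
      have h5 : Real.log ((val m : ℝ) ^ ε) ≤ Real.log (R m) :=
        Real.log_le_log (Real.rpow_pos_of_pos hv ε) h3
      rw [Real.log_rpow hv] at h5
      have h6 := (log_val m).1
      have h7 : (17 / 10 : ℝ) * M ≤ Real.log (val m) := by
        have h9 : (17 / 10 : ℝ) * (2 * m) ≤ 2 * m * Real.log (3 + Real.sqrt 8) := by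
          have : (0 : ℝ) ≤ 2 * m := by positivity
          nlinarith
        linarith
      have h10 : ε * (17 / 10 * M) ≤ ε * Real.log (val m) := mul_le_mul_of_nonneg_left h7 he.le
      linarith
    · exact Real.log_nonneg (by exact_mod_cast R_pos m)
  rw [sum_const, nsmul_eq_mul] at h2
  set k : ℝ := (((Bad ε M).filter (fun m : ℕ => (M : ℝ) / 2 ≤ m)).card : ℝ) with hk
  have h3 : (k * ε) * M ≤ (1120 * Real.sqrt M) * M := by
    have h4 : k * (17 / 10 * ε * (M : ℝ)) ≤ 1904 * (M * Real.sqrt M) := h2.trans h1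
    nlinarith
  have h4 : k * ε ≤ 1120 * Real.sqrt M := le_of_mul_le_mul_right h3 hM0
  rw [div_mul_eq_mul_div, le_div_iff₀ he]
  exact h4

theorem bad_le (ε : ℝ) (he : 0 < ε) (he1 : ε ≤ 1) (M : ℕ) :
    ((Bad ε M).card : ℝ) ≤ 4100 / ε * Real.sqrt M := by
  induction M using Nat.strong_induction_on with
  | _ M ih =>
    have hinv : 1 ≤ 1 / ε := by
      rw [le_div_iff₀ he]
      linarith
    have e1 : 4100 / ε = 4100 * (1 / ε) := by ring
    have e2 : 1120 / ε = 1120 * (1 / ε) := by ring
    rcases Nat.lt_or_ge M 20 with hM | hM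
    · have h1 : ((Bad ε M).card : ℝ) ≤ M := by
        have : (Bad ε M).card ≤ M := by
          refine (card_le_card (filter_subset _ _)).trans ?_
          rw [card_range]
        exact_mod_cast this
      rcases Nat.eq_zero_or_pos M with h0 | h0
      · subst h0
        simpa using h1
      have hMR : (1 : ℝ) ≤ M := by exact_mod_cast h0
      have hM20 : (M : ℝ) ≤ 20 := by exact_mod_cast hM.le
      have hs : 1 ≤ Real.sqrt M := by
        rw [Real.one_le_sqrt]
        exact hMR
      have h2 : (20 : ℝ) ≤ 4100 * (1 / ε) * Real.sqrt M := by nlinarith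
      rw [e1]
      linarith
    · have hMR : (20 : ℝ) ≤ M := by exact_mod_cast hM
      obtain ⟨K, hK⟩ : ∃ K, K = (M + 1) / 2 := ⟨_, rfl⟩
      have hKM : K < M := by omega
      have h1 := ih K hKM
      have h2 := bad_half ε he M (by omega)
      have h3 : (Bad ε M).card ≤ (Bad ε K).card +
          ((Bad ε M).filter (fun m : ℕ => (M : ℝ) / 2 ≤ m)).card := by
        have : Bad ε M ⊆ Bad ε K ∪ (Bad ε M).filter (fun m : ℕ => (M : ℝ) / 2 ≤ m) := by
          intro m hm
          by_cases hc : (M : ℝ) / 2 ≤ m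
          · exact mem_union_right _ (mem_filter.2 ⟨hm, hc⟩)
          · refine mem_union_left _ ?_
            rw [Bad, mem_filter] at hm ⊢
            refine ⟨mem_range.2 ?_, hm.2⟩
            push Not at hc
            have h5 : (2 : ℝ) * m < M := by linarith
            have h6 : 2 * m < M := by exact_mod_cast h5
            omega
        exact (card_le_card this).trans (card_union_le _ _)
      have h3' : ((Bad ε M).card : ℝ) ≤ ((Bad ε K).card : ℝ) +
          (((Bad ε M).filter (fun m : ℕ => (M : ℝ) / 2 ≤ m)).card : ℝ) := by exact_mod_cast h3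
      have hKR : (K : ℝ) ≤ 21 / 40 * M := by
        have h7 : 2 * K ≤ M + 1 := by omega
        have h8 : (2 : ℝ) * K ≤ M + 1 := by exact_mod_cast h7
        linarith
      have hs : Real.sqrt K ≤ 29 / 40 * Real.sqrt M := by
        rw [Real.sqrt_le_left (by positivity), mul_pow, Real.sq_sqrt (by positivity)]
        linarith
      have hs0 := Real.sqrt_nonneg (M : ℝ)
      have h9 : 4100 / ε * Real.sqrt K ≤ 4100 / ε * (29 / 40 * Real.sqrt M) :=
        mul_le_mul_of_nonneg_left hs (by positivity)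
      have h10 : 4100 / ε * (29 / 40 * Real.sqrt M) + 1120 / ε * Real.sqrt M ≤
          4100 / ε * Real.sqrt M := by
        rw [e1, e2]
        have : 0 ≤ 1 / ε * Real.sqrt M := by positivity
        nlinarith
      linarith

open Classical in
/-- all but `4100 sqrt M` of the `val m`, `m < M`, have a prime power factor dividing no earlier
value -/
theorem bad_new (M : ℕ) :
    (((range M).filter (fun m => ¬ ∃ p j : ℕ, p.Prime ∧ p ^ j ∣ val m ∧
      ∀ k < m, ¬ p ^ j ∣ val k)).card : ℝ) ≤ 4100 * Real.sqrt M := by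
  have h := bad_le 1 one_pos le_rfl M
  rw [div_one] at h
  refine le_trans ?_ h
  have h1 : (range M).filter (fun m => ¬ ∃ p j : ℕ, p.Prime ∧ p ^ j ∣ val m ∧
      ∀ k < m, ¬ p ^ j ∣ val k) ⊆ Bad 1 M := by
    intro m hm
    rw [mem_filter] at hm
    rw [Bad, mem_filter]
    refine ⟨hm.1, ?_⟩
    rw [Real.rpow_one]
    rcases bad_R m hm.2 with h0 | h0
    · exfalso
      subst h0
      apply hm.2
      refine ⟨3, 1, Nat.prime_three, ?_, fun k hk => absurd hk (Nat.not_lt_zero k)⟩
      simp [val, pell]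
    · rw [h0]
  exact_mod_cast card_le_card h1

end Pool.Agent.Lib.MP_f53aaa_nt.Prim
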